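import Pool.Agent.H101R3.LD.Lim

set_option autoImplicit false

namespace Pool.Agent.H101R3.LD

open MeasureTheory Set Filter Topology

universe u v w

theorem main_of (hB : TaskB.{u}) (hS : TaskSep.{w}) (hD' : TaskD.{u, v}) (hE' : TaskE.{u})
    (hF' : TaskF.{u, v}) (𝕜 : Type) [RCLike 𝕜] {Ω : Type u} [MeasurableSpace Ω] (μ : Measure Ω)
    {Λ : Type v} (hΛ : Cardinal.mk Λ < Cardinal.continuum) (E : Λ → Set Ω)
    (hE : ∀ γ, MeasurableSet (E γ)) (hEf : ∀ γ, μ (E γ) ≠ ⊤)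
    (hH : ∀ A, MeasurableSet A → 0 < μ A → μ A ≠ ⊤ → (∀ γ, μ (A ∩ E γ) = 0) →
      ∃ B ⊆ A, IsAtom μ B)
    (D : Set Ω) (hDm : MeasurableSet D) (hD0 : 0 < μ D) (hDf : μ D ≠ ⊤)
    (hD : ∀ B ⊆ D, ¬ IsAtom μ B) (X : Type w) [NormedAddCommGroup X] [NormedSpace 𝕜 X]
    (Φ : Lp 𝕜 1 μ ≃L[𝕜] StrongDual 𝕜 X) : False := by
  classical
  set T : Lp 𝕜 1 μ →L[𝕜] StrongDual 𝕜 X := (Φ : Lp 𝕜 1 μ →L[𝕜] StrongDual 𝕜 X) with hT
  set R : StrongDual 𝕜 X →L[𝕜] Lp 𝕜 1 μ := (Φ.symm : StrongDual 𝕜 X →L[𝕜] Lp 𝕜 1 μ) with hR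
  have hRT : ∀ f, R (T f) = f := fun f => Φ.symm_apply_apply f
  have hTR : ∀ z, T (R z) = z := fun z => Φ.apply_symm_apply z
  set κ : ℝ := 1 / (‖R‖ + 1) with hκ
  have hκ0 : 0 < κ := by positivity
  have hTl : ∀ f, κ * ‖f‖ ≤ ‖T f‖ := by
    intro f
    have h1 : ‖f‖ ≤ ‖R‖ * ‖T f‖ := by
      calc ‖f‖ = ‖R (T f)‖ := by rw [hRT]
        _ ≤ ‖R‖ * ‖T f‖ := R.le_opNorm _
    rw [hκ, div_mul_eq_mul_div, one_mul, div_le_iff₀ (by positivity)]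
    nlinarith [norm_nonneg (T f)]
  obtain ⟨A, hA, hn⟩ := exists_tree hB hS T hκ0 hTl hDm hD0 hDf hD
  obtain ⟨z, hz1, hz2⟩ := exists_family hκ0 hA hn
  set w : (ℕ → Bool) → ℕ → Lp 𝕜 1 μ := fun i N => R (z i N) with hw
  have hint : ∀ i N, Integrable (w i N : Ω → 𝕜) μ := fun i N => L1.integrable_coeFn (w i N)
  set δ : ℝ := κ / 4 / (‖T‖ + 1) with hδ
  have hδ0 : 0 < δ := by positivity
  have hN : ∀ i, ∃ N, atMass μ (fun x => ‖w i N x‖) < δ / 16 := by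
    intro i
    apply hE' 𝕜 Ω μ (fun N => (w i N : Ω → 𝕜)) (hint i) (‖R‖ * ‖T‖) _ (δ / 16) (by positivity)
    intro S e he
    rw [← norm_sum_eq S (fun N => ((e N : ℝ) : 𝕜)) (w i)]
    have e1 : ∑ N ∈ S, ((e N : ℝ) : 𝕜) • w i N = R (∑ N ∈ S, ((e N : ℝ) : 𝕜) • z i N) := by
      rw [map_sum]
      apply Finset.sum_congr rfl
      intro N _
      rw [map_smul]
    rw [e1]
    calc ‖R (∑ N ∈ S, ((e N : ℝ) : 𝕜) • z i N)‖ ≤ ‖R‖ * ‖∑ N ∈ S, ((e N : ℝ) : 𝕜) • z i N‖ :=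
          R.le_opNorm _
      _ ≤ ‖R‖ * (‖T‖ * √(S.card : ℝ)) := by
          gcongr
          exact hz1 i S e he
      _ = ‖R‖ * ‖T‖ * √(S.card : ℝ) := by ring
  choose Nn hNn using hN
  apply hF' 𝕜 Ω μ Λ E hΛ hE hEf (fun i => (w i (Nn i) : Ω → 𝕜)) (fun i => hint i (Nn i)) δ hδ0
  · intro S e he
    rw [← norm_sum_eq S (fun i => ((e i : ℝ) : 𝕜)) (fun i => w i (Nn i))]
    have h1 := hz2 Nn S e he
    have e1 : ∑ i ∈ S, ((e i : ℝ) : 𝕜) • z i (Nn i) =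
        T (∑ i ∈ S, ((e i : ℝ) : 𝕜) • w i (Nn i)) := by
      rw [map_sum]
      apply Finset.sum_congr rfl
      intro i _
      rw [map_smul, hw, hTR]
    rw [e1] at h1
    have h2 := T.le_opNorm (∑ i ∈ S, ((e i : ℝ) : 𝕜) • w i (Nn i))
    rw [hδ, div_mul_eq_mul_div, div_le_iff₀ (by positivity)]
    nlinarith [norm_nonneg (∑ i ∈ S, ((e i : ℝ) : 𝕜) • w i (Nn i))]
  · intro i
    obtain ⟨F, hF⟩ := hD' Ω μ Λ E hE hEf hH (fun x => ‖w i (Nn i) x‖) (hint i (Nn i)).norm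
      (fun x => norm_nonneg _) (δ / 16) (by positivity)
    refine ⟨F, hF.trans ?_⟩
    have := hNn i
    linarith

end Pool.Agent.H101R3.LD
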