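import Pool.Agent.H101R3.LD.Stmts

/-!
Task B of project LD (written by helper933).
-/

set_option autoImplicit false

namespace Pool.Agent.H101R3.LD

open MeasureTheory Set Filter Topology

universe u

section TaskBaux

variable {Ω : Type u} [MeasurableSpace Ω]

/-- A finitely additive set function dominated by a finite measure is countably additive. -/
theorem TB.hasSum_of_dominated (g : Set Ω → ℝ) (ν : Measure Ω) [IsFiniteMeasure ν]
    (hg : ∀ B D, MeasurableSet B → MeasurableSet D → Disjoint B D → g (B ∪ D) = g B + g D)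
    (C : ℝ) (hC : ∀ B, MeasurableSet B → |g B| ≤ C * ν.real B)
    (f : ℕ → Set Ω) (hf : ∀ i, MeasurableSet (f i)) (hd : Pairwise (Function.onFun Disjoint f)) :
    HasSum (fun i => g (f i)) (g (⋃ i, f i)) := by
  classical
  have g0 : g ∅ = 0 := by
    have := hC ∅ MeasurableSet.empty
    simp only [measureReal_empty, mul_zero] at this
    exact abs_eq_zero.1 (le_antisymm this (abs_nonneg _))
  have hfin : ∀ F : Finset ℕ, ∑ i ∈ F, g (f i) = g (⋃ i ∈ F, f i) := by
    intro F
    induction F using Finset.induction_on with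
    | empty => simp [g0]
    | insert a F ha ih =>
      rw [Finset.sum_insert ha, ih, Finset.set_biUnion_insert, hg]
      · exact hf a
      · exact Finset.measurableSet_biUnion F (fun i _ => hf i)
      · rw [Set.disjoint_iUnion₂_right]
        intro i hi
        exact hd (fun h => ha (h ▸ hi))
  have hν : HasSum (fun i => ν.real (f i)) (ν.real (⋃ i, f i)) := by
    have h := (ν.toSignedMeasure).m_iUnion hf hd
    simpa only [Measure.toSignedMeasure_apply_measurable (hf _),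
      Measure.toSignedMeasure_apply_measurable (MeasurableSet.iUnion hf)] using h
  have hνfin : ∀ F : Finset ℕ, ν.real (⋃ i ∈ F, f i) = ∑ i ∈ F, ν.real (f i) := by
    intro F
    rw [measureReal_biUnion_finset (fun i _ j _ hij => hd hij) (fun i _ => hf i)]
  have key : ∀ F : Finset ℕ, |∑ i ∈ F, g (f i) - g (⋃ i, f i)|
      ≤ C * (ν.real (⋃ i, f i) - ∑ i ∈ F, ν.real (f i)) := by
    intro F
    have hFm : MeasurableSet (⋃ i ∈ F, f i) := Finset.measurableSet_biUnion F (fun i _ => hf i)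
    have hUm : MeasurableSet (⋃ i, f i) := MeasurableSet.iUnion hf
    have hsub : (⋃ i ∈ F, f i) ⊆ ⋃ i, f i := by
      intro x hx
      simp only [mem_iUnion] at hx ⊢
      obtain ⟨i, _, hi⟩ := hx
      exact ⟨i, hi⟩
    have hrest : MeasurableSet ((⋃ i, f i) \ (⋃ i ∈ F, f i)) := hUm.diff hFm
    have h1 : g (⋃ i, f i) = g (⋃ i ∈ F, f i) + g ((⋃ i, f i) \ (⋃ i ∈ F, f i)) := by
      rw [← hg _ _ hFm hrest disjoint_sdiff_right, union_sdiff_cancel hsub]
    have h2 : ν.real ((⋃ i, f i) \ (⋃ i ∈ F, f i))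
        = ν.real (⋃ i, f i) - ∑ i ∈ F, ν.real (f i) := by
      rw [measureReal_sdiff hsub hFm, hνfin]
    have h3 := hC _ hrest
    rw [h2] at h3
    rw [hfin F, h1]
    have : g (⋃ i ∈ F, f i) - (g (⋃ i ∈ F, f i) + g ((⋃ i, f i) \ (⋃ i ∈ F, f i)))
        = - g ((⋃ i, f i) \ (⋃ i ∈ F, f i)) := by ring
    rw [this, abs_neg]
    exact h3
  have hlim : Tendsto (fun F : Finset ℕ => C * (ν.real (⋃ i, f i) - ∑ i ∈ F, ν.real (f i)))
      atTop (𝓝 0) := by
    have h1 : Tendsto (fun F : Finset ℕ => ∑ i ∈ F, ν.real (f i)) atTop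
        (𝓝 (ν.real (⋃ i, f i))) := hν
    have h2 := (h1.const_sub (ν.real (⋃ i, f i))).const_mul C
    simpa using h2
  show Tendsto (fun F : Finset ℕ => ∑ i ∈ F, g (f i)) atTop (𝓝 (g (⋃ i, f i)))
  rw [tendsto_iff_norm_sub_tendsto_zero]
  exact squeeze_zero (fun _ => norm_nonneg _) (fun F => by
    rw [Real.norm_eq_abs]; exact key F) hlim

open Classical in
/-- The signed measure given by a dominated finitely additive set function. -/
noncomputable def TB.sm (g : Set Ω → ℝ) (ν : Measure Ω) [IsFiniteMeasure ν]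
    (hg : ∀ B D, MeasurableSet B → MeasurableSet D → Disjoint B D → g (B ∪ D) = g B + g D)
    (C : ℝ) (hC : ∀ B, MeasurableSet B → |g B| ≤ C * ν.real B) : SignedMeasure Ω where
  measureOf' B := if MeasurableSet B then g B else 0
  empty' := by
    have := hC ∅ MeasurableSet.empty
    simp only [measureReal_empty, mul_zero] at this
    simp only [MeasurableSet.empty, if_true]
    exact abs_eq_zero.1 (le_antisymm this (abs_nonneg _))
  not_measurable' B hB := if_neg hB
  m_iUnion' f hf hd := by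
    have h := TB.hasSum_of_dominated g ν hg C hC f hf hd
    simpa only [hf, MeasurableSet.iUnion hf, if_true] using h

theorem TB.sm_apply (g : Set Ω → ℝ) (ν : Measure Ω) [IsFiniteMeasure ν]
    (hg : ∀ B D, MeasurableSet B → MeasurableSet D → Disjoint B D → g (B ∪ D) = g B + g D)
    (C : ℝ) (hC : ∀ B, MeasurableSet B → |g B| ≤ C * ν.real B) {B : Set Ω}
    (hB : MeasurableSet B) : TB.sm g ν hg C hC B = g B :=
  if_pos hB

end TaskBaux

theorem taskB : TaskB.{u} := by
  intro 𝕜 _ Ω _ μ ℓ hadd ⟨C, hC⟩ A hA hμA hApos hle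
  classical
  have hfinA : IsFiniteMeasure (μ.restrict A) := ⟨by
    rw [Measure.restrict_apply_univ]; exact lt_top_iff_ne_top.2 hμA⟩
  have hne : ∀ B : Set Ω, μ (B ∩ A) ≠ ⊤ := fun B =>
    ne_top_of_le_ne_top hμA (measure_mono inter_subset_right)
  have hindeq : ∀ B : Set Ω, ∀ (hB : MeasurableSet B), ∀ (hμB : μ B ≠ ⊤),
      ind 𝕜 μ B = indicatorConstLp 1 hB hμB (1 : 𝕜) := by
    intro B hB hμB
    unfold ind
    rw [dif_pos ⟨hB, hμB⟩]
  have hnorm : ∀ B : Set Ω, ∀ (hB : MeasurableSet B), ∀ (hμB : μ B ≠ ⊤),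
      ‖ind 𝕜 μ B‖ = μ.real B := by
    intro B hB hμB
    rw [hindeq B hB hμB, norm_indicatorConstLp one_ne_zero ENNReal.one_ne_top]
    simp
  have hunion : ∀ B D : Set Ω, MeasurableSet B → MeasurableSet D → μ B ≠ ⊤ → μ D ≠ ⊤ →
      Disjoint B D → ind 𝕜 μ (B ∪ D) = ind 𝕜 μ B + ind 𝕜 μ D := by
    intro B D hB hD hμB hμD hd
    rw [hindeq _ (hB.union hD) (measure_union_ne_top hμB hμD), hindeq B hB hμB,
      hindeq D hD hμD]
    exact indicatorConstLp_disjoint_union hB hD hμB hμD hd 1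
  have hreal : ∀ B : Set Ω, MeasurableSet B → (μ.restrict A).real B = μ.real (B ∩ A) := by
    intro B hB
    exact measureReal_restrict_apply hB
  let g : Set Ω → ℝ := fun B => ℓ (ind 𝕜 μ (B ∩ A)) - μ.real (B ∩ A) / 2
  have hg : ∀ B D, MeasurableSet B → MeasurableSet D → Disjoint B D →
      g (B ∪ D) = g B + g D := by
    intro B D hB hD hd
    have hd' : Disjoint (B ∩ A) (D ∩ A) := hd.mono inter_subset_left inter_subset_left
    show ℓ (ind 𝕜 μ ((B ∪ D) ∩ A)) - μ.real ((B ∪ D) ∩ A) / 2 = _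
    rw [union_inter_distrib_right, hunion _ _ (hB.inter hA) (hD.inter hA) (hne B) (hne D) hd',
      hadd, measureReal_union hd' (hD.inter hA) (hne B) (hne D)]
    show _ = ℓ (ind 𝕜 μ (B ∩ A)) - μ.real (B ∩ A) / 2 + (ℓ (ind 𝕜 μ (D ∩ A)) - μ.real (D ∩ A) / 2)
    ring
  have hgC : ∀ B, MeasurableSet B → |g B| ≤ (C + 1 / 2) * (μ.restrict A).real B := by
    intro B hB
    rw [hreal B hB]
    have h1 := hC (ind 𝕜 μ (B ∩ A))
    rw [hnorm _ (hB.inter hA) (hne B)] at h1
    have h2 : 0 ≤ μ.real (B ∩ A) := measureReal_nonneg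
    have h3 : |g B| ≤ |ℓ (ind 𝕜 μ (B ∩ A))| + |μ.real (B ∩ A) / 2| := abs_sub _ _
    have h4 : |μ.real (B ∩ A) / 2| = μ.real (B ∩ A) / 2 := abs_of_nonneg (by positivity)
    rw [h4] at h3
    calc |g B| ≤ |ℓ (ind 𝕜 μ (B ∩ A))| + μ.real (B ∩ A) / 2 := h3
      _ ≤ C * μ.real (B ∩ A) + μ.real (B ∩ A) / 2 := by linarith
      _ = (C + 1 / 2) * μ.real (B ∩ A) := by ring
  set s := TB.sm g (μ.restrict A) hg (C + 1 / 2) hgC with hs
  have hsA : 0 < s A := by
    rw [hs, TB.sm_apply _ _ _ _ _ hA]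
    show 0 < ℓ (ind 𝕜 μ (A ∩ A)) - μ.real (A ∩ A) / 2
    rw [inter_self]
    have h1 : 0 < μ.real A := ENNReal.toReal_pos hApos.ne' hμA
    have h2 : μ.real A ≤ ℓ (ind 𝕜 μ A) := hle
    linarith
  have hneg : (-s) A < 0 := by
    rw [VectorMeasure.neg_apply]; linarith
  obtain ⟨j, hj, hjA, hjneg, hjlt⟩ := SignedMeasure.exists_subset_restrict_nonpos hneg
  refine ⟨j, hjA, hj, ?_, ?_⟩
  · rw [pos_iff_ne_zero]
    intro h0
    have h1 : (μ.restrict A).real j = 0 := by
      rw [hreal j hj, measureReal_def]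
      have : μ (j ∩ A) = 0 := measure_mono_null inter_subset_left h0
      rw [this]; simp
    have h2 := hgC j hj
    rw [h1, mul_zero] at h2
    have h3 : g j = 0 := abs_eq_zero.1 (le_antisymm h2 (abs_nonneg _))
    rw [VectorMeasure.neg_apply, hs, TB.sm_apply _ _ _ _ _ hj, h3] at hjlt
    simp at hjlt
  · intro B hBj hB
    have h1 := VectorMeasure.subset_le_of_restrict_le_restrict (-s) 0 hj hjneg hBj
    rw [VectorMeasure.neg_apply, hs, TB.sm_apply _ _ _ _ _ hB] at h1
    have hBA : B ∩ A = B := inter_eq_left.2 (hBj.trans hjA)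
    have h2 : g B = ℓ (ind 𝕜 μ B) - μ.real B / 2 := by
      show ℓ (ind 𝕜 μ (B ∩ A)) - μ.real (B ∩ A) / 2 = _
      rw [hBA]
    rw [h2] at h1
    simp only [VectorMeasure.coe_zero, Pi.zero_apply] at h1
    show μ.real B / 2 ≤ _
    linarith

end Pool.Agent.H101R3.LD
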