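import Mathlib

/-!
Project LD (helper101): if the atomless part of `μ` is carried by at least one and fewer than
continuum many pieces of finite measure, then `L¹(μ)` is not isomorphic to a dual Banach space
(MP_3844f5_an). Definitions and statements of the tasks.
-/

set_option autoImplicit false

namespace Pool.Agent.H101R3.LD

open MeasureTheory Set Filter Topology

universe u v w

/-- `A` is an atom of `μ`. -/
def IsAtom {Ω : Type u} [MeasurableSpace Ω] (μ : Measure Ω) (A : Set Ω) : Prop :=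
  MeasurableSet A ∧ 0 < μ A ∧ ∀ B ⊆ A, MeasurableSet B → μ B = 0 ∨ μ (A \ B) = 0

/-- `G` is a finite union of atoms of finite measure. -/
def FinAtoms {Ω : Type u} [MeasurableSpace Ω] (μ : Measure Ω) (G : Set Ω) : Prop :=
  ∃ (n : ℕ) (B : Fin n → Set Ω), (∀ i, IsAtom μ (B i) ∧ μ (B i) ≠ ⊤) ∧ G = ⋃ i, B i

/-- the mass on the atoms of finite measure of a nonnegative integrable function -/
noncomputable def atMass {Ω : Type u} [MeasurableSpace Ω] (μ : Measure Ω) (f : Ω → ℝ) : ℝ :=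
  sSup {r : ℝ | ∃ G, FinAtoms μ G ∧ r = ∫ x in G, f x ∂μ}

open Classical in
/-- the indicator function of `B` as an element of `L¹(μ)` -/
noncomputable def ind (𝕜 : Type) [RCLike 𝕜] {Ω : Type u} [MeasurableSpace Ω] (μ : Measure Ω)
    (B : Set Ω) : Lp 𝕜 1 μ :=
  if h : MeasurableSet B ∧ μ B ≠ ⊤ then indicatorConstLp 1 h.1 h.2 (1 : 𝕜) else 0

/-- Task B. An additive bounded functional on `L¹(μ)` that is large on `1_A` is large on all
subsets of some `A' ⊆ A` of positive measure. (Hahn decomposition of the signed measure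
`B ↦ ℓ (1_B) - μ B / 2` on `A`; e.g. `SignedMeasure.exists_subset_restrict_nonpos`.) -/
def TaskB : Prop := ∀ (𝕜 : Type) [RCLike 𝕜] (Ω : Type u) [MeasurableSpace Ω] (μ : Measure Ω)
    (ℓ : Lp 𝕜 1 μ → ℝ), (∀ f g, ℓ (f + g) = ℓ f + ℓ g) → (∃ C : ℝ, ∀ f, |ℓ f| ≤ C * ‖f‖) →
    ∀ A : Set Ω, MeasurableSet A → μ A ≠ ⊤ → 0 < μ A → (μ A).toReal ≤ ℓ (ind 𝕜 μ A) →
    ∃ A' ⊆ A, MeasurableSet A' ∧ 0 < μ A' ∧ ∀ B ⊆ A', MeasurableSet B →
      (μ B).toReal / 2 ≤ ℓ (ind 𝕜 μ B)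

/-- Task Sep. Functionals which are an `ℓ₁` basis up to `κ` take all sign patterns on a ball.
(Separation of the image `{(σ j * re (φ j y))_j : ‖y‖ ≤ 2 / κ}` from the open convex set
`{v : ∀ j, 1 < v j}` in `ι → ℝ` by `geometric_hahn_banach_open`.) -/
def TaskSep : Prop := ∀ (𝕜 : Type) [RCLike 𝕜] (X : Type u) [NormedAddCommGroup X]
    [NormedSpace 𝕜 X] (ι : Type) [Fintype ι] (φ : ι → StrongDual 𝕜 X) (κ : ℝ), 0 < κ →
    (∀ c : ι → ℝ, κ * ∑ j, |c j| ≤ ‖∑ j, ((c j : ℝ) : 𝕜) • φ j‖) →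
    ∀ σ : ι → ℝ, (∀ j, σ j = 1 ∨ σ j = -1) →
      ∃ y : X, ‖y‖ ≤ 2 / κ ∧ ∀ j, 1 ≤ σ j * RCLike.re (φ j y)

/-- Task D. Up to `ε`, the mass of `f` off finitely many pieces `E γ` is the mass on atoms.
(Exhaustion for the finite measure `ρ = f μ`: `U` = union of an increasing sequence of finite
unions of pieces of nearly maximal `ρ`, `V` = the same for finite unions of atoms of finite
measure; `ρ (E γ \ U) = 0`, `ρ (B \ V) = 0` for all atoms, and `ρ ((U ∪ V)ᶜ) = 0` by the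
hypothesis applied to `(U ∪ V)ᶜ ∩ {f > 1 / k}`.) -/
def TaskD : Prop := ∀ (Ω : Type u) [MeasurableSpace Ω] (μ : Measure Ω) (Λ : Type v)
    (E : Λ → Set Ω), (∀ γ, MeasurableSet (E γ)) → (∀ γ, μ (E γ) ≠ ⊤) →
    (∀ A, MeasurableSet A → 0 < μ A → μ A ≠ ⊤ → (∀ γ, μ (A ∩ E γ) = 0) →
      ∃ B ⊆ A, IsAtom μ B) →
    ∀ f : Ω → ℝ, Integrable f μ → (∀ x, 0 ≤ f x) → ∀ ε : ℝ, 0 < ε →
      ∃ F : Finset Λ, ∫ x in (⋃ γ ∈ F, E γ)ᶜ, f x ∂μ ≤ atMass μ f + ε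

/-- Task E. A sequence in `L¹(μ)` with upper `ℓ₂` estimates has small mass on atoms. (Let
`a(f) = atMass μ ‖f‖`. On an atom `B` of finite measure `∫_B ‖f‖ ≤ |∫_B re f| + |∫_B im f|`
because the sets `{re f > 0}`, `{im f > 0}` are null or conull in `B`; choosing the signs `e N`,
`∑_{N ∈ S} |re ∫_B z N| ≤ C √|S|`, so `∫_B ‖z N‖ → 0` for every atom, hence on every finite union
`G` of atoms. If `a(z N) ≥ ε` for all `N`, then `a(v + z N) ≥ a(v) + a(z N) - ε / 2` for all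
large `N` and every integrable `v`: take `G` with `∫_G ‖v‖ ≥ a(v) - ε/8`, `G'` with
`∫_{G'} ‖z N‖ ≥ a(z N) - ε/8` and use `G ∪ G'`, `∫_{G' \ G} ‖v‖ ≤ ε/8`. By induction there are
`S_K` with `|S_K| = K` and `a(∑_{N ∈ S_K} z N) ≥ K ε / 2`, contradiction with `C √K`.) -/
def TaskE : Prop := ∀ (𝕜 : Type) [RCLike 𝕜] (Ω : Type u) [MeasurableSpace Ω] (μ : Measure Ω)
    (z : ℕ → Ω → 𝕜), (∀ N, Integrable (z N) μ) → ∀ C : ℝ,
    (∀ (S : Finset ℕ) (e : ℕ → ℝ), (∀ N, e N = 1 ∨ e N = -1) →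
      ∫ x, ‖∑ N ∈ S, ((e N : ℝ) : 𝕜) * z N x‖ ∂μ ≤ C * √(S.card : ℝ)) →
    ∀ ε : ℝ, 0 < ε → ∃ N, atMass μ (fun x => ‖z N x‖) < ε

/-- Task F. There are no continuum many functions in `L¹(μ)` which are an `ℓ₁` basis and are nearly
carried by finitely many of fewer than continuum many sets of finite measure. (For each `i` choose
the finite set `F i` and `R i : ℕ` with `∫_{‖z i‖ > R i} ‖z i‖ ≤ δ / 8`; by
`Cardinal.infinite_pigeonhole_card_lt` for `Finset Λ × ℕ` (cardinality `< 𝔠` and infinite)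
infinitely many `i` have the same `F, R`. With `G = ⋃_{γ ∈ F} E γ`,
`b i = z i 1_{G ∩ {‖z i‖ ≤ R}}` one has `∫ ‖z i - b i‖ ≤ δ / 4`, `∫_G ‖b i‖² ≤ R² μ G`, and signs can
be chosen successively with `∫_G ‖∑ e i b i‖² ≤ ∑ ∫_G ‖b i‖² ≤ m R² μ G`, so by Cauchy–Schwarz
`∫ ‖∑ e i b i‖ ≤ √m R μ G`; hence `δ m ≤ √m R μ G + m δ / 4` for all `m`, a contradiction.) -/
def TaskF : Prop := ∀ (𝕜 : Type) [RCLike 𝕜] (Ω : Type u) [MeasurableSpace Ω] (μ : Measure Ω)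
    (Λ : Type v) (E : Λ → Set Ω), Cardinal.mk Λ < Cardinal.continuum →
    (∀ γ, MeasurableSet (E γ)) → (∀ γ, μ (E γ) ≠ ⊤) →
    ∀ (z : (ℕ → Bool) → Ω → 𝕜), (∀ i, Integrable (z i) μ) → ∀ δ : ℝ, 0 < δ →
    (∀ (S : Finset (ℕ → Bool)) (e : (ℕ → Bool) → ℝ), (∀ i, e i = 1 ∨ e i = -1) →
      δ * (S.card : ℝ) ≤ ∫ x, ‖∑ i ∈ S, ((e i : ℝ) : 𝕜) * z i x‖ ∂μ) →
    (∀ i, ∃ F : Finset Λ, ∫ x in (⋃ γ ∈ F, E γ)ᶜ, ‖z i x‖ ∂μ ≤ δ / 8) → False

end Pool.Agent.H101R3.LD
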