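import Mathlib
import Pool.Agent.H101R3.LD.Stmts

/-!
Project LD (helper101), Task D (helper96): exhaustion.
-/

set_option autoImplicit false

namespace Pool.Agent.H101R3.LD.TD

open MeasureTheory Set Filter Topology

universe u v w

/-- Exhaustion by an increasing sequence of finite unions. -/
theorem exh {Ω : Type u} [MeasurableSpace Ω] (ρ : Measure Ω) [IsFiniteMeasure ρ] {I : Type w}
    (S : I → Set Ω) (hS : ∀ i, MeasurableSet (S i)) :
    ∃ G : ℕ → Finset I, Monotone G ∧ ∀ i, ρ (S i \ ⋃ n, ⋃ j ∈ G n, S j) = 0 := by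
  classical
  have hsle : (⨆ F : Finset I, ρ (⋃ j ∈ F, S j)) ≤ ρ univ :=
    iSup_le fun F => measure_mono (subset_univ _)
  obtain ⟨s, hs⟩ : ∃ s, s = ⨆ F : Finset I, ρ (⋃ j ∈ F, S j) := ⟨_, rfl⟩
  have hsT : s ≠ ⊤ := by
    rw [hs]; exact ne_top_of_le_ne_top (measure_ne_top ρ _) hsle
  have h1 : ∀ n : ℕ, ∃ F : Finset I, s ≤ ρ (⋃ j ∈ F, S j) + ((n : ENNReal) + 1)⁻¹ := by
    intro n
    by_contra h
    push Not at h
    have h2 : s + ((n : ENNReal) + 1)⁻¹ ≤ s := by
      conv_lhs => rw [hs]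
      rw [ENNReal.iSup_add]
      exact iSup_le fun F => (h F).le
    have h3 : s < s + ((n : ENNReal) + 1)⁻¹ := by
      apply ENNReal.lt_add_right hsT
      simp
    exact absurd h2 (not_le.2 h3)
  choose F hF using h1
  refine ⟨fun n => (Finset.range (n + 1)).biUnion F, ?_, ?_⟩
  · intro m n hmn
    apply Finset.biUnion_subset_biUnion_of_subset_left
    intro k hk
    simp only [Finset.mem_range] at hk ⊢
    omega
  intro i
  set U := ⋃ n, ⋃ j ∈ (Finset.range (n + 1)).biUnion F, S j with hU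
  have key : ∀ n : ℕ, ρ (S i \ U) ≤ ((n : ENNReal) + 1)⁻¹ := by
    intro n
    set G := (Finset.range (n + 1)).biUnion F with hG
    have hGm : MeasurableSet (⋃ j ∈ G, S j) := Finset.measurableSet_biUnion _ fun j _ => hS j
    have hsub : (⋃ j ∈ G, S j) ⊆ U := by
      rw [hU]; exact subset_iUnion (fun n => ⋃ j ∈ (Finset.range (n + 1)).biUnion F, S j) n
    have hdis : Disjoint (S i \ U) (⋃ j ∈ G, S j) :=
      disjoint_sdiff_left.mono_right hsub
    have h4 : ρ (S i \ U) + ρ (⋃ j ∈ G, S j) ≤ s := by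
      rw [← measure_union hdis hGm, hs]
      refine le_trans (measure_mono ?_)
        (le_iSup (fun F : Finset I => ρ (⋃ j ∈ F, S j)) (insert i G))
      intro x hx
      simp only [Finset.mem_insert, iUnion_iUnion_eq_or_left]
      rcases hx with hx | hx
      · exact Or.inl hx.1
      · exact Or.inr hx
    have h5 : ρ (⋃ j ∈ F n, S j) ≤ ρ (⋃ j ∈ G, S j) := by
      apply measure_mono
      apply biUnion_subset_biUnion_left
      intro k hk
      have : k ∈ G := by
        rw [hG, Finset.mem_biUnion]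
        exact ⟨n, by simp, hk⟩
      exact this
    have h6 : ρ (S i \ U) + ρ (⋃ j ∈ G, S j) ≤ ((n : ENNReal) + 1)⁻¹ + ρ (⋃ j ∈ G, S j) := by
      refine h4.trans ((hF n).trans ?_)
      rw [add_comm]
      gcongr
    exact (ENNReal.add_le_add_iff_right (measure_ne_top ρ _)).1 h6
  have hlim : Tendsto (fun n : ℕ => ((n : ENNReal) + 1)⁻¹) atTop (𝓝 0) := by
    have := (tendsto_add_atTop_iff_nat 1).2 ENNReal.tendsto_inv_nat_nhds_zero
    simpa using this
  exact nonpos_iff_eq_zero.1 (ge_of_tendsto' hlim key)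

/-- Task D. -/
theorem taskD : Pool.Agent.H101R3.LD.TaskD.{u, v} := by
  intro Ω _ μ Λ E hEm hEf hat f hf hf0 ε hε
  classical
  -- measurable representative
  obtain ⟨g, hgm, hfg⟩ : ∃ g : Ω → ℝ, Measurable g ∧ f =ᵐ[μ] g :=
    ⟨hf.1.mk f, hf.1.stronglyMeasurable_mk.measurable, hf.1.ae_eq_mk⟩
  have hgi : Integrable g μ := hf.congr hfg
  -- the finite measure
  set ρ : Measure Ω := μ.withDensity (fun x => ENNReal.ofReal (f x)) with hρ
  have : IsFiniteMeasure ρ := isFiniteMeasure_withDensity_ofReal hf.2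
  have hρA : ∀ A, MeasurableSet A → ρ A = ENNReal.ofReal (∫ x in A, f x ∂μ) := by
    intro A hA
    rw [hρ, withDensity_apply _ hA, ofReal_integral_eq_lintegral_ofReal hf.integrableOn
      (ae_of_all _ hf0)]
  have hnn : ∀ A, 0 ≤ ∫ x in A, f x ∂μ := fun A => integral_nonneg hf0
  have hρR : ∀ A, MeasurableSet A → ρ.real A = ∫ x in A, f x ∂μ := by
    intro A hA
    rw [Measure.real, hρA A hA, ENNReal.toReal_ofReal (hnn A)]
  obtain ⟨G, hGm, hG⟩ := exh ρ E hEm
  obtain ⟨H, hHm, hH⟩ := exh ρ (fun B : {B : Set Ω // IsAtom μ B ∧ μ B ≠ ⊤} => (B : Set Ω))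
    (fun B => B.2.1.1)
  set Un : ℕ → Set Ω := fun n => ⋃ j ∈ G n, E j with hUn
  set Vn : ℕ → Set Ω := fun n => ⋃ j ∈ H n, (j : Set Ω) with hVn
  have hUnm : ∀ n, MeasurableSet (Un n) := fun n => Finset.measurableSet_biUnion _ fun j _ => hEm j
  have hVnm : ∀ n, MeasurableSet (Vn n) := fun n => Finset.measurableSet_biUnion _ fun j _ => j.2.1.1
  set U := ⋃ n, Un n with hU
  set V := ⋃ n, Vn n with hV
  have hUm : MeasurableSet U := MeasurableSet.iUnion hUnm
  have hVm : MeasurableSet V := MeasurableSet.iUnion hVnm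
  -- nothing is left
  have hW : ρ (U ∪ V)ᶜ = 0 := by
    by_contra hne
    have hWm : MeasurableSet (U ∪ V)ᶜ := (hUm.union hVm).compl
    -- some level set has positive measure
    have h1 : ∃ k : ℕ, μ ((U ∪ V)ᶜ ∩ {x | 1 / ((k : ℝ) + 1) < g x}) ≠ 0 := by
      by_contra hcon
      push Not at hcon
      apply hne
      rw [hρ, withDensity_apply _ hWm]
      rw [lintegral_eq_zero_iff' (by
        exact (hf.1.aemeasurable.ennreal_ofReal).restrict)]
      rw [EventuallyEq, ae_restrict_iff' hWm]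
      have h2 : ∀ᵐ x ∂μ, ∀ k : ℕ, ¬ (x ∈ (U ∪ V)ᶜ ∩ {x | 1 / ((k : ℝ) + 1) < g x}) := by
        rw [ae_all_iff]
        intro k
        exact measure_eq_zero_iff_ae_notMem.1 (hcon k)
      filter_upwards [h2, hfg] with x hx hxg hxW
      have h3 : g x ≤ 0 := by
        by_contra hpos
        push Not at hpos
        obtain ⟨k, hk⟩ := exists_nat_one_div_lt hpos
        exact hx k ⟨hxW, hk⟩
      simp only [Pi.zero_apply]
      rw [hxg]
      exact ENNReal.ofReal_of_nonpos h3
    obtain ⟨k, hk⟩ := h1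
    set A := (U ∪ V)ᶜ ∩ {x | 1 / ((k : ℝ) + 1) < g x} with hA
    have hkpos : (0 : ℝ) < 1 / ((k : ℝ) + 1) := by positivity
    have hAm : MeasurableSet A := hWm.inter (measurableSet_lt measurable_const hgm)
    have hAfin : μ A ≠ ⊤ := by
      have h2 : μ {x | 1 / ((k : ℝ) + 1) ≤ ‖g x‖} < ⊤ :=
        hgi.measure_norm_ge_lt_top hkpos
      refine ne_top_of_le_ne_top h2.ne (measure_mono ?_)
      intro x hx
      have : 1 / ((k : ℝ) + 1) < g x := hx.2
      simp only [mem_ofPred_eq]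
      exact this.le.trans (le_abs_self _)
    -- a subset of `A` of zero `ρ`-mass is null
    have hnull : ∀ B ⊆ A, MeasurableSet B → ρ B = 0 → μ B = 0 := by
      intro B hBA hB hB0
      rw [hρ, withDensity_apply _ hB, lintegral_eq_zero_iff' (by
        exact (hf.1.aemeasurable.ennreal_ofReal).restrict), EventuallyEq,
        ae_restrict_iff' hB] at hB0
      rw [measure_eq_zero_iff_ae_notMem]
      filter_upwards [hB0, hfg] with x hx hxg hxB
      have h3 := hx hxB
      simp only [Pi.zero_apply, ENNReal.ofReal_eq_zero] at h3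
      have h4 : 1 / ((k : ℝ) + 1) < g x := (hBA hxB).2
      rw [hxg] at h3
      linarith
    obtain ⟨B, hBA, hB⟩ := hat A hAm (pos_iff_ne_zero.2 hk) hAfin (by
      intro γ
      apply hnull _ inter_subset_left (hAm.inter (hEm γ))
      refine measure_mono_null ?_ (hG γ)
      intro x hx
      refine ⟨hx.2, fun hxU => hx.1.1 (Or.inl ?_)⟩
      exact hxU)
    have hBfin : μ B ≠ ⊤ := ne_top_of_le_ne_top hAfin (measure_mono hBA)
    have hB0 : ρ B = 0 := by
      refine measure_mono_null ?_ (hH ⟨B, hB, hBfin⟩)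
      intro x hx
      refine ⟨hx, fun hxV => (hBA hx).1 (Or.inr ?_)⟩
      exact hxV
    exact hB.2.1.ne' (hnull B hBA hB.1 hB0)
  -- the mass on `V`
  have hbdd : BddAbove {r : ℝ | ∃ G, FinAtoms μ G ∧ r = ∫ x in G, f x ∂μ} := by
    refine ⟨∫ x, f x ∂μ, ?_⟩
    rintro r ⟨G, -, rfl⟩
    exact setIntegral_le_integral hf (ae_of_all _ hf0)
  have hVle : ρ.real V ≤ atMass μ f := by
    have hmono : Monotone Vn := by
      intro m n hmn
      exact biUnion_subset_biUnion_left (hHm hmn)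
    have ht : Tendsto (fun n => ρ.real (Vn n)) atTop (𝓝 (ρ.real V)) := by
      have := tendsto_measure_iUnion_atTop (μ := ρ) hmono
      exact (ENNReal.tendsto_toReal (measure_ne_top ρ _)).comp this
    refine le_of_tendsto' ht fun n => ?_
    rw [hρR _ (hVnm n)]
    refine le_csSup hbdd ⟨Vn n, ?_, rfl⟩
    refine ⟨(H n).card, fun i => (((H n).equivFin.symm i : H n) : {B : Set Ω // IsAtom μ B ∧ μ B ≠ ⊤}),
      fun i => (((H n).equivFin.symm i : H n) : {B : Set Ω // IsAtom μ B ∧ μ B ≠ ⊤}).2, ?_⟩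
    ext x
    simp only [hVn, mem_iUnion]
    constructor
    · rintro ⟨j, hj, hx⟩
      exact ⟨(H n).equivFin ⟨j, hj⟩, by simpa using hx⟩
    · rintro ⟨i, hx⟩
      exact ⟨_, ((H n).equivFin.symm i).2, hx⟩
  have hUc : ρ.real Uᶜ ≤ atMass μ f := by
    refine le_trans ?_ hVle
    have h1 : ρ Uᶜ ≤ ρ V := by
      calc ρ Uᶜ ≤ ρ (V ∪ (U ∪ V)ᶜ) := by
            apply measure_mono
            intro x hx
            by_cases hxV : x ∈ V
            · exact Or.inl hxV
            · exact Or.inr (by simpa [hxV] using hx)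
        _ ≤ ρ V + ρ (U ∪ V)ᶜ := measure_union_le _ _
        _ = ρ V := by rw [hW, add_zero]
    exact ENNReal.toReal_mono (measure_ne_top ρ _) h1
  -- the finite pieces
  have hanti : Antitone fun n => (Un n)ᶜ := by
    intro m n hmn
    exact compl_subset_compl.2 (biUnion_subset_biUnion_left (hGm hmn))
  have ht : Tendsto (fun n => ρ.real (Un n)ᶜ) atTop (𝓝 (ρ.real Uᶜ)) := by
    have h1 := tendsto_measure_iInter_atTop (μ := ρ)
      (fun n => ((hUnm n).compl).nullMeasurableSet) hanti ⟨0, measure_ne_top ρ _⟩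
    have h2 : (⋂ n, (Un n)ᶜ) = Uᶜ := by rw [hU, compl_iUnion]
    rw [h2] at h1
    exact (ENNReal.tendsto_toReal (measure_ne_top ρ _)).comp h1
  have hlt : ρ.real Uᶜ < atMass μ f + ε := by linarith
  obtain ⟨n, hn⟩ := (ht.eventually_lt_const hlt).exists
  refine ⟨G n, ?_⟩
  rw [← hρR _ (hUnm n).compl]
  exact hn.le

end Pool.Agent.H101R3.LD.TD

namespace Pool.Agent.H101R3.LD

universe u v

theorem taskD : Pool.Agent.H101R3.LD.TaskD.{u, v} := TD.taskD

end Pool.Agent.H101R3.LD
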