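import Pool.Agent.H101R3.LD.Stmts

/-! Project LD (helper101), task E (helper34). -/

set_option autoImplicit false
set_option maxHeartbeats 4000000

namespace Pool.Agent.H101R3.LD

open MeasureTheory Set Filter Topology

universe u

namespace EAux

variable {Ω : Type u} [MeasurableSpace Ω] {μ : Measure Ω}

theorem meas {G : Set Ω} (h : FinAtoms μ G) : MeasurableSet G := by
  obtain ⟨n, B, hB, rfl⟩ := h
  exact MeasurableSet.iUnion fun i => (hB i).1.1

theorem finAtoms_union {G G' : Set Ω} (h : FinAtoms μ G) (h' : FinAtoms μ G') :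
    FinAtoms μ (G ∪ G') := by
  obtain ⟨n, B, hB, rfl⟩ := h
  obtain ⟨m, B', hB', rfl⟩ := h'
  refine ⟨n + m, Fin.append B B', ?_, ?_⟩
  · intro i
    refine Fin.addCases (fun i => ?_) (fun i => ?_) i
    · simpa using hB i
    · simpa using hB' i
  · ext x
    simp only [mem_union, mem_iUnion]
    constructor
    · rintro (⟨i, hi⟩ | ⟨i, hi⟩)
      · exact ⟨Fin.castAdd m i, by simpa using hi⟩
      · exact ⟨Fin.natAdd n i, by simpa using hi⟩
    · rintro ⟨i, hi⟩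
      revert hi
      refine Fin.addCases (fun i => ?_) (fun i => ?_) i
      · intro hi
        left
        exact ⟨i, by simpa using hi⟩
      · intro hi
        right
        exact ⟨i, by simpa using hi⟩

theorem finAtoms_empty : FinAtoms μ (∅ : Set Ω) :=
  ⟨0, fun i => i.elim0, fun i => i.elim0, by simp⟩

theorem bdd {f : Ω → ℝ} (hf : Integrable f μ) (h0 : ∀ x, 0 ≤ f x) :
    ∀ r ∈ {r : ℝ | ∃ G, FinAtoms μ G ∧ r = ∫ x in G, f x ∂μ}, r ≤ ∫ x, f x ∂μ := by
  rintro r ⟨G, hG, rfl⟩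
  exact setIntegral_le_integral hf (Eventually.of_forall h0)

theorem le_atMass {f : Ω → ℝ} (hf : Integrable f μ) (h0 : ∀ x, 0 ≤ f x) {G : Set Ω}
    (hG : FinAtoms μ G) : ∫ x in G, f x ∂μ ≤ atMass μ f :=
  le_csSup ⟨_, bdd hf h0⟩ ⟨G, hG, rfl⟩

theorem atMass_le {f : Ω → ℝ} (hf : Integrable f μ) (h0 : ∀ x, 0 ≤ f x) :
    atMass μ f ≤ ∫ x, f x ∂μ :=
  csSup_le ⟨_, ∅, finAtoms_empty, rfl⟩ (bdd hf h0)

theorem exists_close (μ : Measure Ω) (f : Ω → ℝ) {η : ℝ} (hη : 0 < η) :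
    ∃ G, FinAtoms μ G ∧ atMass μ f - η < ∫ x in G, f x ∂μ := by
  obtain ⟨r, ⟨G, hG, rfl⟩, hr⟩ := exists_lt_of_lt_csSup
    (s := {r : ℝ | ∃ G, FinAtoms μ G ∧ r = ∫ x in G, f x ∂μ}) ⟨_, ∅, finAtoms_empty, rfl⟩
    (show atMass μ f - η < sSup {r : ℝ | ∃ G, FinAtoms μ G ∧ r = ∫ x in G, f x ∂μ} from
      sub_lt_self _ hη)
  exact ⟨G, hG, hr⟩

theorem atom_abs {B : Set Ω} (hB : IsAtom μ B) {g : Ω → ℝ} (hg : Integrable g μ) :
    ∫ x in B, |g x| ∂μ ≤ |∫ x in B, g x ∂μ| := by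
  set g' := hg.1.mk g with hg'
  have hgm : StronglyMeasurable g' := hg.1.stronglyMeasurable_mk
  have hae : g =ᵐ[μ] g' := hg.1.ae_eq_mk
  have hP : MeasurableSet (B ∩ {x | 0 < g' x}) :=
    hB.1.inter (measurableSet_lt measurable_const hgm.measurable)
  rcases hB.2.2 _ inter_subset_left hP with h | h
  · have h1 : ∀ᵐ x ∂(μ.restrict B), g x ≤ 0 := by
      rw [ae_restrict_iff' hB.1]
      have : ∀ᵐ x ∂μ, x ∉ B ∩ {x | 0 < g' x} := measure_eq_zero_iff_ae_notMem.1 h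
      filter_upwards [this, hae] with x hx he hxB
      by_contra hc
      refine hx ⟨hxB, ?_⟩
      show 0 < g' x
      rw [← he]
      linarith
    have h2 : ∫ x in B, |g x| ∂μ = - ∫ x in B, g x ∂μ := by
      rw [← integral_neg]
      refine integral_congr_ae ?_
      filter_upwards [h1] with x hx
      exact abs_of_nonpos hx
    rw [h2]
    exact neg_le_abs _
  · have h1 : ∀ᵐ x ∂(μ.restrict B), 0 ≤ g x := by
      rw [ae_restrict_iff' hB.1]
      have : ∀ᵐ x ∂μ, x ∉ B \ (B ∩ {x | 0 < g' x}) := measure_eq_zero_iff_ae_notMem.1 h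
      filter_upwards [this, hae] with x hx he hxB
      by_contra hc
      refine hx ⟨hxB, fun hh => ?_⟩
      have h3 : 0 < g' x := hh.2
      rw [← he] at h3
      linarith
    have h2 : ∫ x in B, |g x| ∂μ = ∫ x in B, g x ∂μ := by
      refine integral_congr_ae ?_
      filter_upwards [h1] with x hx
      exact abs_of_nonneg hx
    rw [h2]
    exact le_abs_self _

theorem num0 (C η : ℝ) (hη : 0 < η) : ∃ K : ℕ, C * √(K : ℝ) < K * η := by
  obtain ⟨K, hK⟩ := exists_nat_gt ((|C| / η) ^ 2)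
  have hK0 : 0 < (K : ℝ) := lt_of_le_of_lt (by positivity) hK
  have h2 : |C| / η < √(K : ℝ) := Real.lt_sqrt_of_sq_lt hK
  have h3 : 0 < √(K : ℝ) := Real.sqrt_pos.2 hK0
  have h4 : |C| < √(K : ℝ) * η := by rwa [div_lt_iff₀ hη] at h2
  refine ⟨K, ?_⟩
  calc C * √(K : ℝ) ≤ |C| * √(K : ℝ) := mul_le_mul_of_nonneg_right (le_abs_self C) h3.le
    _ < (√(K : ℝ) * η) * √(K : ℝ) := mul_lt_mul_of_pos_right h4 h3
    _ = (√(K : ℝ) * √(K : ℝ)) * η := by ring
    _ = K * η := by rw [Real.mul_self_sqrt hK0.le]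

theorem num (w : ℕ → ℝ) (C : ℝ) (h : ∀ S : Finset ℕ, ∑ N ∈ S, w N ≤ C * √(S.card : ℝ))
    (η : ℝ) (hη : 0 < η) : {N | η ≤ w N}.Finite := by
  by_contra hinf
  obtain ⟨K, hK⟩ := num0 C η hη
  obtain ⟨S, hS, hc⟩ := Set.Infinite.exists_subset_card_eq hinf K
  have h1 : (K : ℝ) * η ≤ C * √(K : ℝ) := by
    calc (K : ℝ) * η = ∑ N ∈ S, η := by rw [Finset.sum_const, hc, nsmul_eq_mul]
      _ ≤ ∑ N ∈ S, w N := Finset.sum_le_sum fun N hN => hS hN
      _ ≤ _ := by have := h S; rwa [hc] at this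
  linarith

theorem sgn {𝕜 : Type} [RCLike 𝕜] (z : ℕ → Ω → 𝕜) (hz : ∀ N, Integrable (z N) μ) (C : ℝ)
    (h : ∀ (S : Finset ℕ) (e : ℕ → ℝ), (∀ N, e N = 1 ∨ e N = -1) →
      ∫ x, ‖∑ N ∈ S, ((e N : ℝ) : 𝕜) * z N x‖ ∂μ ≤ C * √(S.card : ℝ))
    (L : 𝕜 →L[ℝ] ℝ) (hL : ∀ w, |L w| ≤ ‖w‖) (B : Set Ω) (S : Finset ℕ) :
    ∑ N ∈ S, |∫ x in B, L (z N x) ∂μ| ≤ C * √(S.card : ℝ) := by
  classical
  set e : ℕ → ℝ := fun N => if 0 ≤ ∫ x in B, L (z N x) ∂μ then 1 else -1 with he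
  have he1 : ∀ N, e N = 1 ∨ e N = -1 := fun N => by
    simp only [he]
    split_ifs <;> simp
  have hLz : ∀ N, Integrable (fun x => L (z N x)) μ := fun N => L.integrable_comp (hz N)
  have h1 : ∑ N ∈ S, |∫ x in B, L (z N x) ∂μ| = ∫ x in B, ∑ N ∈ S, e N * L (z N x) ∂μ := by
    rw [integral_finsetSum]
    · refine Finset.sum_congr rfl fun N _ => ?_
      rw [integral_const_mul]
      simp only [he]
      split_ifs with h0
      · rw [abs_of_nonneg h0, one_mul]
      · rw [abs_of_neg (not_le.1 h0)]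
        ring
    · intro N _
      exact ((hLz N).const_mul _).integrableOn
  have h2 : ∀ x, ∑ N ∈ S, e N * L (z N x) = L (∑ N ∈ S, ((e N : ℝ) : 𝕜) * z N x) := by
    intro x
    rw [map_sum]
    refine Finset.sum_congr rfl fun N _ => ?_
    rw [← RCLike.real_smul_eq_coe_mul, map_smul, smul_eq_mul]
  have hI : Integrable (fun x => ∑ N ∈ S, ((e N : ℝ) : 𝕜) * z N x) μ :=
    integrable_finsetSum _ fun N _ => (hz N).const_mul _
  calc _ = ∫ x in B, L (∑ N ∈ S, ((e N : ℝ) : 𝕜) * z N x) ∂μ := by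
        rw [h1]
        simp only [h2]
    _ ≤ ∫ x in B, ‖∑ N ∈ S, ((e N : ℝ) : 𝕜) * z N x‖ ∂μ :=
        integral_mono (L.integrable_comp hI).integrableOn hI.norm.integrableOn
          (fun x => (le_abs_self _).trans (hL _))
    _ ≤ ∫ x, ‖∑ N ∈ S, ((e N : ℝ) : 𝕜) * z N x‖ ∂μ :=
        setIntegral_le_integral hI.norm (Eventually.of_forall fun x => norm_nonneg _)
    _ ≤ _ := h S e he1

theorem iUnion_le {n : ℕ} (B : Fin n → Set Ω) (hB : ∀ i, MeasurableSet (B i)) {f : Ω → ℝ}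
    (hf : Integrable f μ) (h0 : ∀ x, 0 ≤ f x) :
    ∫ x in ⋃ i, B i, f x ∂μ ≤ ∑ i, ∫ x in B i, f x ∂μ := by
  rw [← integral_indicator (MeasurableSet.iUnion hB)]
  simp_rw [← integral_indicator (hB _)]
  rw [← integral_finsetSum]
  · refine integral_mono (hf.indicator (MeasurableSet.iUnion hB))
      (integrable_finsetSum _ fun i _ => hf.indicator (hB i)) ?_
    intro x
    show (⋃ i, B i).indicator f x ≤ ∑ i, (B i).indicator f x
    by_cases hx : x ∈ ⋃ i, B i
    · obtain ⟨i, hi⟩ := mem_iUnion.1 hx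
      rw [indicator_of_mem hx]
      calc f x = (B i).indicator f x := (indicator_of_mem hi _).symm
        _ ≤ ∑ i, (B i).indicator f x :=
          Finset.single_le_sum (f := fun i => (B i).indicator f x)
            (fun i _ => indicator_nonneg (fun x _ => h0 x) x) (Finset.mem_univ i)
    · rw [indicator_of_notMem hx]
      exact Finset.sum_nonneg fun i _ => indicator_nonneg (fun x _ => h0 x) x
  · intro i _
    exact hf.indicator (hB i)

theorem norm_le_re_im {𝕜 : Type} [RCLike 𝕜] (w : 𝕜) : ‖w‖ ≤ |RCLike.re w| + |RCLike.im w| := by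
  rw [← pow_le_pow_iff_left₀ (norm_nonneg w) (by positivity) two_ne_zero, RCLike.norm_sq_eq_def]
  have h1 := sq_abs (RCLike.re w)
  have h2 := sq_abs (RCLike.im w)
  have h3 : 0 ≤ |RCLike.re w| * |RCLike.im w| := by positivity
  nlinarith

theorem fin_atoms {𝕜 : Type} [RCLike 𝕜] (z : ℕ → Ω → 𝕜) (hz : ∀ N, Integrable (z N) μ) (C : ℝ)
    (h : ∀ (S : Finset ℕ) (e : ℕ → ℝ), (∀ N, e N = 1 ∨ e N = -1) →
      ∫ x, ‖∑ N ∈ S, ((e N : ℝ) : 𝕜) * z N x‖ ∂μ ≤ C * √(S.card : ℝ)) (G : Set Ω)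
    (hG : FinAtoms μ G) (η : ℝ) (hη : 0 < η) : {N | η ≤ ∫ x in G, ‖z N x‖ ∂μ}.Finite := by
  obtain ⟨n, B, hB, rfl⟩ := hG
  have hre : ∀ N, Integrable (fun x => RCLike.re (z N x)) μ := fun N => (hz N).re
  have him : ∀ N, Integrable (fun x => RCLike.im (z N x)) μ := fun N => (hz N).im
  set w : ℕ → ℝ := fun N => ∑ i : Fin n, (|∫ x in B i, RCLike.re (z N x) ∂μ| +
    |∫ x in B i, RCLike.im (z N x) ∂μ|) with hw
  have hzw : ∀ N, ∫ x in ⋃ i, B i, ‖z N x‖ ∂μ ≤ w N := by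
    intro N
    refine (iUnion_le B (fun i => (hB i).1.1) (hz N).norm (fun x => norm_nonneg _)).trans ?_
    refine Finset.sum_le_sum fun i _ => ?_
    calc ∫ x in B i, ‖z N x‖ ∂μ
        ≤ ∫ x in B i, (|RCLike.re (z N x)| + |RCLike.im (z N x)|) ∂μ :=
          integral_mono (hz N).norm.integrableOn ((hre N).abs.add (him N).abs).integrableOn
            (fun x => norm_le_re_im _)
      _ = ∫ x in B i, |RCLike.re (z N x)| ∂μ + ∫ x in B i, |RCLike.im (z N x)| ∂μ :=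
          integral_add (hre N).abs.integrableOn (him N).abs.integrableOn
      _ ≤ _ := add_le_add (atom_abs (hB i).1 (hre N)) (atom_abs (hB i).1 (him N))
  have hsum : ∀ S : Finset ℕ, ∑ N ∈ S, w N ≤ ((n : ℝ) * (2 * C)) * √(S.card : ℝ) := by
    intro S
    rw [Finset.sum_comm]
    have : ∀ i ∈ (Finset.univ : Finset (Fin n)),
        ∑ N ∈ S, (|∫ x in B i, RCLike.re (z N x) ∂μ| + |∫ x in B i, RCLike.im (z N x) ∂μ|) ≤
          2 * C * √(S.card : ℝ) := by
      intro i _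
      rw [Finset.sum_add_distrib]
      have h1 := sgn z hz C h (RCLike.reCLM : 𝕜 →L[ℝ] ℝ) (fun w => RCLike.abs_re_le_norm w) (B i) S
      have h2 := sgn z hz C h (RCLike.imCLM : 𝕜 →L[ℝ] ℝ) (fun w => RCLike.abs_im_le_norm w) (B i) S
      simp only [RCLike.reCLM_apply, RCLike.imCLM_apply] at h1 h2
      linarith
    refine (Finset.sum_le_sum this).trans ?_
    rw [Finset.sum_const, Finset.card_univ, Fintype.card_fin, nsmul_eq_mul]
    linarith
  refine (num w _ hsum η hη).subset ?_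
  intro N hN
  exact le_trans hN (hzw N)

theorem step {𝕜 : Type} [RCLike 𝕜] (z : ℕ → Ω → 𝕜) (hz : ∀ N, Integrable (z N) μ)
    (hfin : ∀ G, FinAtoms μ G → ∀ η : ℝ, 0 < η → {N | η ≤ ∫ x in G, ‖z N x‖ ∂μ}.Finite)
    (v : Ω → 𝕜) (hv : Integrable v μ) (η : ℝ) (hη : 0 < η) :
    {N | atMass μ (fun x => ‖v x + z N x‖) <
      atMass μ (fun x => ‖v x‖) + atMass μ (fun x => ‖z N x‖) - η}.Finite := by
  obtain ⟨G, hG, hGv⟩ := exists_close μ (fun x => ‖v x‖) (η := η / 4) (by linarith)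
  refine (hfin G hG (η / 8) (by linarith)).subset ?_
  intro N hN
  have hN' : atMass μ (fun x => ‖v x + z N x‖) <
      atMass μ (fun x => ‖v x‖) + atMass μ (fun x => ‖z N x‖) - η := hN
  by_contra hc
  have hc' : ∫ x in G, ‖z N x‖ ∂μ < η / 8 := not_le.1 hc
  obtain ⟨G', hG', hz'⟩ := exists_close μ (fun x => ‖z N x‖) (η := η / 8) (by linarith)
  have hH := finAtoms_union hG hG'
  have hvz : Integrable (fun x => v x + z N x) μ := hv.add (hz N)
  have hle := le_atMass hvz.norm (fun x => norm_nonneg _) hH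
  have hvH := le_atMass hv.norm (fun x => norm_nonneg _) hH
  have hmono : ∫ x in G', ‖z N x‖ ∂μ ≤ ∫ x in G ∪ G', ‖z N x‖ ∂μ :=
    setIntegral_mono_set (hz N).norm.integrableOn
      (Eventually.of_forall fun x => norm_nonneg _)
      (Eventually.of_forall (subset_union_right : G' ⊆ G ∪ G'))
  have hD : MeasurableSet (G' \ G) := (meas hG').diff (meas hG)
  have hsplit : ∀ f : Ω → ℝ, Integrable f μ →
      ∫ x in G ∪ G', f x ∂μ = ∫ x in G, f x ∂μ + ∫ x in G' \ G, f x ∂μ := by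
    intro f hf
    rw [← union_sdiff_self, setIntegral_union disjoint_sdiff_self_right hD hf.integrableOn
      hf.integrableOn]
  have e1 := hsplit _ hv.norm
  have e2 := hsplit _ (hz N).norm
  have e3 := hsplit _ hvz.norm
  have i1 : ∫ x in G, ‖v x‖ ∂μ - ∫ x in G, ‖z N x‖ ∂μ ≤ ∫ x in G, ‖v x + z N x‖ ∂μ := by
    rw [← integral_sub hv.norm.integrableOn (hz N).norm.integrableOn]
    refine integral_mono (hv.norm.sub (hz N).norm).integrableOn hvz.norm.integrableOn ?_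
    intro x
    show ‖v x‖ - ‖z N x‖ ≤ ‖v x + z N x‖
    have := norm_sub_le (v x + z N x) (z N x)
    rw [add_sub_cancel_right] at this
    linarith
  have i2 : ∫ x in G' \ G, ‖z N x‖ ∂μ - ∫ x in G' \ G, ‖v x‖ ∂μ ≤
      ∫ x in G' \ G, ‖v x + z N x‖ ∂μ := by
    rw [← integral_sub (hz N).norm.integrableOn hv.norm.integrableOn]
    refine integral_mono ((hz N).norm.sub hv.norm).integrableOn hvz.norm.integrableOn ?_
    intro x
    show ‖z N x‖ - ‖v x‖ ≤ ‖v x + z N x‖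
    have := norm_sub_le (v x + z N x) (v x)
    rw [add_sub_cancel_left] at this
    linarith
  simp only at hle hvH e1 e2 e3 hGv hz'
  linarith

end EAux

open EAux

theorem taskE : TaskE.{u} := by
  classical
  intro 𝕜 _ Ω _ μ z hz C h ε hε
  by_contra hcon
  have hcon' : ∀ N, ε ≤ atMass μ (fun x => ‖z N x‖) := fun N => by
    by_contra hc
    exact hcon ⟨N, not_le.1 hc⟩
  have hfin := fin_atoms z hz C h
  have hSint : ∀ S : Finset ℕ, Integrable (fun x => ∑ N ∈ S, z N x) μ := fun S =>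
    integrable_finsetSum _ fun N _ => hz N
  have hind : ∀ K : ℕ, ∃ S : Finset ℕ, S.card = K ∧
      (K : ℝ) * (ε / 2) ≤ atMass μ (fun x => ‖∑ N ∈ S, z N x‖) := by
    intro K
    induction K with
    | zero =>
      refine ⟨∅, rfl, ?_⟩
      have := le_atMass (hSint ∅).norm (fun x => norm_nonneg _) (finAtoms_empty (μ := μ))
      rw [setIntegral_empty] at this
      simpa using this
    | succ K ih =>
      obtain ⟨S, hS, hSm⟩ := ih
      have hf := step z hz hfin (fun x => ∑ N ∈ S, z N x) (hSint S) (ε / 2) (by linarith)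
      obtain ⟨N, hN⟩ := (hf.union S.finite_toSet).infinite_compl.nonempty
      have hN1 : ¬ (atMass μ (fun x => ‖∑ M ∈ S, z M x + z N x‖) <
        atMass μ (fun x => ‖∑ M ∈ S, z M x‖) + atMass μ (fun x => ‖z N x‖) - ε / 2) := fun hh =>
          hN (Or.inl hh)
      have hN2 : N ∉ S := fun hh => hN (Or.inr hh)
      refine ⟨insert N S, by rw [Finset.card_insert_of_notMem hN2, hS], ?_⟩
      have e : (fun x => ‖∑ M ∈ insert N S, z M x‖) = fun x => ‖∑ M ∈ S, z M x + z N x‖ := by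
        funext x
        rw [Finset.sum_insert hN2, add_comm]
      rw [e]
      have h1 := hcon' N
      have h2 := not_lt.1 hN1
      push_cast
      linarith
  obtain ⟨K, hK⟩ := num0 C (ε / 2) (by linarith)
  obtain ⟨S, hS, hSm⟩ := hind K
  have h1 := h S (fun _ => 1) (fun _ => Or.inl rfl)
  have h2 := atMass_le (hSint S).norm (fun x => norm_nonneg _)
  have h3 : ∀ x, ∑ N ∈ S, ((1 : ℝ) : 𝕜) * z N x = ∑ N ∈ S, z N x := fun x =>
    Finset.sum_congr rfl fun N _ => by rw [RCLike.ofReal_one, one_mul]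
  simp only [h3, hS] at h1
  linarith

end Pool.Agent.H101R3.LD
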