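import Pool.Agent.H101R3.LD.Stmts

set_option autoImplicit false

namespace Pool.Agent.H101R3.LD

open MeasureTheory Set Filter Topology

universe u v

namespace F448

variable {𝕜 : Type} [RCLike 𝕜] {Ω : Type u} [MeasurableSpace Ω]

/-- signs -/
theorem signs (ν : Measure Ω) [IsFiniteMeasure ν] (b : (ℕ → Bool) → Ω → 𝕜)
    (hm : ∀ i, StronglyMeasurable (b i)) (R : ℝ) (hR : 0 ≤ R) (hb : ∀ i x, ‖b i x‖ ≤ R)
    (S : Finset (ℕ → Bool)) :
    ∃ e : (ℕ → Bool) → ℝ, (∀ i, e i = 1 ∨ e i = -1) ∧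
      ∫ x, ‖∑ i ∈ S, ((e i : ℝ) : 𝕜) * b i x‖ ^ 2 ∂ν ≤ (S.card : ℝ) * (R ^ 2 * ν.real univ) := by
  classical
  have hms : ∀ (e : (ℕ → Bool) → ℝ) (S : Finset (ℕ → Bool)),
      StronglyMeasurable (fun x => ∑ i ∈ S, ((e i : ℝ) : 𝕜) * b i x) := by
    intro e S
    exact Finset.stronglyMeasurable_fun_sum S (fun i _ => (hm i).const_mul _)
  have hbd : ∀ (e : (ℕ → Bool) → ℝ), (∀ i, e i = 1 ∨ e i = -1) → ∀ (S : Finset (ℕ → Bool)) x,
      ‖∑ i ∈ S, ((e i : ℝ) : 𝕜) * b i x‖ ≤ (S.card : ℝ) * R := by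
    intro e he S x
    calc ‖∑ i ∈ S, ((e i : ℝ) : 𝕜) * b i x‖ ≤ ∑ i ∈ S, ‖((e i : ℝ) : 𝕜) * b i x‖ :=
          norm_sum_le _ _
      _ ≤ ∑ i ∈ S, R := by
          refine Finset.sum_le_sum fun i _ => ?_
          rw [norm_mul, RCLike.norm_ofReal]
          have : |e i| = 1 := by rcases he i with h | h <;> simp [h]
          rw [this, one_mul]
          exact hb i x
      _ = (S.card : ℝ) * R := by simp
  have hint : ∀ (f : Ω → 𝕜) (C : ℝ), StronglyMeasurable f → (∀ x, ‖f x‖ ≤ C) →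
      Integrable (fun x => ‖f x‖ ^ 2) ν := by
    intro f C hf hC
    refine Integrable.of_bound (C := C ^ 2) ((hf.norm.pow 2).aestronglyMeasurable) ?_
    refine Filter.Eventually.of_forall fun x => ?_
    rw [Real.norm_eq_abs, abs_of_nonneg (by positivity)]
    exact pow_le_pow_left₀ (norm_nonneg _) (hC x) 2
  induction S using Finset.induction_on with
  | empty => exact ⟨fun _ => 1, fun _ => Or.inl rfl, by simp⟩
  | insert i0 S hi ih =>
    obtain ⟨e, he, hle⟩ := ih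
    set s : Ω → 𝕜 := fun x => ∑ i ∈ S, ((e i : ℝ) : 𝕜) * b i x with hs
    have hsm : StronglyMeasurable s := hms e S
    have hsb : ∀ x, ‖s x‖ ≤ (S.card : ℝ) * R := hbd e he S
    have i1 : Integrable (fun x => ‖s x + b i0 x‖ ^ 2) ν :=
      hint (fun x => s x + b i0 x) ((S.card : ℝ) * R + R) (hsm.add (hm i0))
        (fun x => (norm_add_le _ _).trans (add_le_add (hsb x) (hb i0 x)))
    have i2 : Integrable (fun x => ‖s x - b i0 x‖ ^ 2) ν :=
      hint (fun x => s x - b i0 x) ((S.card : ℝ) * R + R) (hsm.sub (hm i0))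
        (fun x => (norm_sub_le _ _).trans (add_le_add (hsb x) (hb i0 x)))
    have i3 : Integrable (fun x => ‖s x‖ ^ 2) ν := hint s _ hsm hsb
    have i4 : Integrable (fun x => ‖b i0 x‖ ^ 2) ν := hint (b i0) _ (hm i0) (hb i0)
    have par : (∫ x, ‖s x + b i0 x‖ ^ 2 ∂ν) + (∫ x, ‖s x - b i0 x‖ ^ 2 ∂ν)
        = 2 * (∫ x, ‖s x‖ ^ 2 ∂ν) + 2 * (∫ x, ‖b i0 x‖ ^ 2 ∂ν) := by
      rw [← integral_add i1 i2, ← integral_const_mul, ← integral_const_mul,
        ← integral_add (i3.const_mul 2) (i4.const_mul 2)]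
      refine integral_congr_ae (Filter.Eventually.of_forall fun x => ?_)
      have := parallelogram_law_with_norm 𝕜 (s x) (b i0 x)
      simp only
      nlinarith [this]
    have hb4 : ∫ x, ‖b i0 x‖ ^ 2 ∂ν ≤ R ^ 2 * ν.real univ := by
      have : ∫ x, ‖b i0 x‖ ^ 2 ∂ν ≤ ∫ _x, R ^ 2 ∂ν := by
        refine integral_mono i4 (integrable_const _) fun x => ?_
        exact pow_le_pow_left₀ (norm_nonneg _) (hb i0 x) 2
      rw [integral_const, smul_eq_mul, mul_comm] at this
      exact this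
    have key : ∃ ε : ℝ, (ε = 1 ∨ ε = -1) ∧
        ∫ x, ‖s x + ((ε : ℝ) : 𝕜) * b i0 x‖ ^ 2 ∂ν
          ≤ (∫ x, ‖s x‖ ^ 2 ∂ν) + ∫ x, ‖b i0 x‖ ^ 2 ∂ν := by
      by_cases h : ∫ x, ‖s x + b i0 x‖ ^ 2 ∂ν ≤ (∫ x, ‖s x‖ ^ 2 ∂ν) + ∫ x, ‖b i0 x‖ ^ 2 ∂ν
      · exact ⟨1, Or.inl rfl, by simpa using h⟩
      · refine ⟨-1, Or.inr rfl, ?_⟩
        have e1 : ∀ x, s x + (((-1 : ℝ)) : 𝕜) * b i0 x = s x - b i0 x := by
          intro x; push_cast; ring
        simp only [e1]
        push Not at h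
        linarith
    obtain ⟨ε, hε, hεle⟩ := key
    refine ⟨Function.update e i0 ε, ?_, ?_⟩
    · intro i
      by_cases hii : i = i0
      · subst hii; simpa using hε
      · rw [Function.update_of_ne hii]; exact he i
    · have e2 : ∀ x, ∑ i ∈ insert i0 S, ((Function.update e i0 ε i : ℝ) : 𝕜) * b i x
          = s x + ((ε : ℝ) : 𝕜) * b i0 x := by
        intro x
        rw [Finset.sum_insert hi, Function.update_self, add_comm]
        congr 1
        refine Finset.sum_congr rfl fun i his => ?_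
        rw [Function.update_of_ne (fun h : i = i0 => hi (h ▸ his))]
      simp only [e2]
      rw [Finset.card_insert_of_notMem hi]
      push_cast
      nlinarith [hεle, hle, hb4]

theorem core (μ : Measure Ω) (z : (ℕ → Bool) → Ω → 𝕜) (hm : ∀ i, StronglyMeasurable (z i))
    (hz : ∀ i, Integrable (z i) μ) (G : Set Ω) (hG : MeasurableSet G) (hGf : μ G ≠ ⊤) (R : ℝ)
    (hR : 0 ≤ R) (δ : ℝ) (hδ : 0 < δ) (T : Set (ℕ → Bool)) (hT : T.Infinite)
    (h1 : ∀ i ∈ T, ∫ x in Gᶜ, ‖z i x‖ ∂μ ≤ δ / 8)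
    (h2 : ∀ i ∈ T, ∫ x in {x | R < ‖z i x‖}, ‖z i x‖ ∂μ ≤ δ / 8)
    (hlow : ∀ (S : Finset (ℕ → Bool)) (e : (ℕ → Bool) → ℝ), (∀ i, e i = 1 ∨ e i = -1) →
      δ * (S.card : ℝ) ≤ ∫ x, ‖∑ i ∈ S, ((e i : ℝ) : 𝕜) * z i x‖ ∂μ) : False := by
  classical
  set A : (ℕ → Bool) → Set Ω := fun i => G ∩ {x | ‖z i x‖ ≤ R} with hA
  have hAm : ∀ i, MeasurableSet (A i) := fun i =>
    hG.inter (measurableSet_le (hm i).norm.measurable measurable_const)
  set b : (ℕ → Bool) → Ω → 𝕜 := fun i => (A i).indicator (z i) with hb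
  have hbm : ∀ i, StronglyMeasurable (b i) := fun i => (hm i).indicator (hAm i)
  have hbR : ∀ i x, ‖b i x‖ ≤ R := by
    intro i x
    by_cases hx : x ∈ A i
    · simp only [hb, indicator_of_mem hx]; exact hx.2
    · simp only [hb, indicator_of_notMem hx, norm_zero]; exact hR
  have hbint : ∀ i, Integrable (b i) μ := fun i => (hz i).indicator (hAm i)
  have hBm : ∀ i, MeasurableSet {x | R < ‖z i x‖} := fun i =>
    measurableSet_lt measurable_const (hm i).norm.measurable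
  have hdiff : ∀ i ∈ T, ∫ x, ‖z i x - b i x‖ ∂μ ≤ δ / 4 := by
    intro i hi
    have hle : ∀ x, ‖z i x - b i x‖ ≤ Gᶜ.indicator (fun x => ‖z i x‖) x
        + {x | R < ‖z i x‖}.indicator (fun x => ‖z i x‖) x := by
      intro x
      by_cases hx : x ∈ A i
      · simp only [hb, indicator_of_mem hx, sub_self, norm_zero]
        exact add_nonneg (indicator_nonneg (fun _ _ => norm_nonneg _) _)
          (indicator_nonneg (fun _ _ => norm_nonneg _) _)
      · simp only [hb, indicator_of_notMem hx, sub_zero]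
        by_cases hxG : x ∈ G
        · have hx2 : x ∈ {x | R < ‖z i x‖} := by
            by_contra h
            exact hx ⟨hxG, (not_lt.mp h : ‖z i x‖ ≤ R)⟩
          rw [indicator_of_mem hx2]
          have : 0 ≤ Gᶜ.indicator (fun x => ‖z i x‖) x :=
            indicator_nonneg (fun _ _ => norm_nonneg _) _
          linarith
        · have hx2 : x ∈ Gᶜ := hxG
          rw [indicator_of_mem hx2]
          have : 0 ≤ {x | R < ‖z i x‖}.indicator (fun x => ‖z i x‖) x :=
            indicator_nonneg (fun _ _ => norm_nonneg _) _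
          linarith
    calc ∫ x, ‖z i x - b i x‖ ∂μ ≤ ∫ x, (Gᶜ.indicator (fun x => ‖z i x‖) x
        + {x | R < ‖z i x‖}.indicator (fun x => ‖z i x‖) x) ∂μ :=
          integral_mono ((hz i).sub (hbint i)).norm
            (((hz i).norm.indicator hG.compl).add ((hz i).norm.indicator (hBm i))) hle
      _ = (∫ x in Gᶜ, ‖z i x‖ ∂μ) + ∫ x in {x | R < ‖z i x‖}, ‖z i x‖ ∂μ := by
          rw [integral_add ((hz i).norm.indicator hG.compl) ((hz i).norm.indicator (hBm i)),
            integral_indicator hG.compl, integral_indicator (hBm i)]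
      _ ≤ δ / 4 := by linarith [h1 i hi, h2 i hi]
  set M : ℝ := (μ.restrict G).real univ with hM
  have : IsFiniteMeasure (μ.restrict G) := ⟨by
    rw [Measure.restrict_apply_univ]; exact lt_top_iff_ne_top.mpr hGf⟩
  have hM0 : 0 ≤ M := measureReal_nonneg
  set lam : ℝ := 2 * R ^ 2 * M / δ + 1 with hlam
  have hlam0 : 0 < lam := by positivity
  obtain ⟨m, hmm⟩ := exists_nat_gt (lam * M / δ)
  obtain ⟨S, hST, hSc⟩ := hT.exists_subset_card_eq m
  obtain ⟨e, he, hle⟩ := signs (μ.restrict G) b hbm R hR hbR S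
  have hlo := hlow S e he
  set s : Ω → 𝕜 := fun x => ∑ i ∈ S, ((e i : ℝ) : 𝕜) * b i x with hs
  have hsint : Integrable s μ := by
    refine integrable_finsetSum _ fun i _ => ?_
    exact (hbint i).const_mul _
  have hsm : StronglyMeasurable s := Finset.stronglyMeasurable_fun_sum S
    (fun i _ => (hbm i).const_mul _)
  have hen : ∀ i, ‖((e i : ℝ) : 𝕜)‖ = 1 := by
    intro i
    rw [RCLike.norm_ofReal]
    rcases he i with h | h <;> simp [h]
  -- upper bound of the integral of the sum of the z i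
  have hup : ∫ x, ‖∑ i ∈ S, ((e i : ℝ) : 𝕜) * z i x‖ ∂μ
      ≤ (∫ x, ‖s x‖ ∂μ) + (m : ℝ) * (δ / 4) := by
    have hd : Integrable (fun x => ∑ i ∈ S, ‖z i x - b i x‖) μ :=
      integrable_finsetSum _ fun i _ => ((hz i).sub (hbint i)).norm
    have hzs : Integrable (fun x => ∑ i ∈ S, ((e i : ℝ) : 𝕜) * z i x) μ :=
      integrable_finsetSum _ fun i _ => (hz i).const_mul _
    calc ∫ x, ‖∑ i ∈ S, ((e i : ℝ) : 𝕜) * z i x‖ ∂μ
        ≤ ∫ x, (‖s x‖ + ∑ i ∈ S, ‖z i x - b i x‖) ∂μ := by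
          refine integral_mono hzs.norm (hsint.norm.add hd) fun x => ?_
          have : ∑ i ∈ S, ((e i : ℝ) : 𝕜) * z i x
              = s x + ∑ i ∈ S, ((e i : ℝ) : 𝕜) * (z i x - b i x) := by
            simp only [hs]
            rw [← Finset.sum_add_distrib]
            exact Finset.sum_congr rfl fun i _ => by ring
          simp only [this]
          refine (norm_add_le _ _).trans (add_le_add le_rfl ?_)
          refine (norm_sum_le _ _).trans (Finset.sum_le_sum fun i _ => ?_)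
          rw [norm_mul, hen, one_mul]
      _ = (∫ x, ‖s x‖ ∂μ) + ∑ i ∈ S, ∫ x, ‖z i x - b i x‖ ∂μ := by
          rw [integral_add hsint.norm hd, integral_finsetSum]
          exact fun i _ => ((hz i).sub (hbint i)).norm
      _ ≤ (∫ x, ‖s x‖ ∂μ) + (m : ℝ) * (δ / 4) := by
          refine add_le_add le_rfl ?_
          calc ∑ i ∈ S, ∫ x, ‖z i x - b i x‖ ∂μ ≤ ∑ i ∈ S, δ / 4 :=
                Finset.sum_le_sum fun i hi => hdiff i (hST hi)
            _ = (m : ℝ) * (δ / 4) := by rw [Finset.sum_const, hSc, nsmul_eq_mul]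
  have hsG : ∫ x, ‖s x‖ ∂μ = ∫ x in G, ‖s x‖ ∂μ := by
    symm
    refine setIntegral_eq_integral_of_forall_compl_eq_zero fun x hx => ?_
    have : s x = 0 := by
      simp only [hs]
      refine Finset.sum_eq_zero fun i _ => ?_
      have : x ∉ A i := fun h => hx h.1
      simp [hb, indicator_of_notMem this]
    rw [this, norm_zero]
  have hsq : Integrable (fun x => ‖s x‖ ^ 2) (μ.restrict G) := by
    refine Integrable.of_bound (C := ((S.card : ℝ) * R) ^ 2)
      ((hsm.norm.pow 2).aestronglyMeasurable) (Filter.Eventually.of_forall fun x => ?_)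
    rw [Real.norm_eq_abs, abs_of_nonneg (by positivity)]
    refine pow_le_pow_left₀ (norm_nonneg _) ?_ 2
    calc ‖s x‖ ≤ ∑ i ∈ S, ‖((e i : ℝ) : 𝕜) * b i x‖ := norm_sum_le _ _
      _ ≤ ∑ i ∈ S, R := Finset.sum_le_sum fun i _ => by
          rw [norm_mul, hen, one_mul]; exact hbR i x
      _ = (S.card : ℝ) * R := by simp
  have hCS : ∫ x in G, ‖s x‖ ∂μ ≤ (1 / (2 * lam)) * (∫ x in G, ‖s x‖ ^ 2 ∂μ) + lam / 2 * M := by
    have : ∫ x in G, ‖s x‖ ∂μ ≤ ∫ x in G, ((1 / (2 * lam)) * ‖s x‖ ^ 2 + lam / 2) ∂μ := by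
      refine integral_mono hsint.norm.integrableOn
        ((hsq.const_mul _).add (integrable_const _)) fun x => ?_
      have h3 : 0 ≤ (‖s x‖ - lam) ^ 2 := sq_nonneg _
      have h4 : (1 / (2 * lam)) * ‖s x‖ ^ 2 + lam / 2 - ‖s x‖
          = (‖s x‖ - lam) ^ 2 / (2 * lam) := by
        field_simp
        ring
      have h5 : 0 ≤ (‖s x‖ - lam) ^ 2 / (2 * lam) := by positivity
      simp only
      linarith
    rw [integral_add (hsq.const_mul _) (integrable_const _), integral_const_mul,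
      integral_const, smul_eq_mul] at this
    linarith [this, mul_comm (lam / 2) M]
  have hmS : (S.card : ℝ) = m := by rw [hSc]
  rw [hmS] at hlo hle
  have hfin : (1 / (2 * lam)) * ((m : ℝ) * (R ^ 2 * M)) ≤ (m : ℝ) * (δ / 4) := by
    have h6 : R ^ 2 * M / (2 * lam) ≤ δ / 4 := by
      rw [div_le_iff₀ (by positivity)]
      have : δ * lam = 2 * R ^ 2 * M + δ := by
        rw [hlam]; field_simp
      nlinarith
    calc (1 / (2 * lam)) * ((m : ℝ) * (R ^ 2 * M)) = (m : ℝ) * (R ^ 2 * M / (2 * lam)) := by ring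
      _ ≤ (m : ℝ) * (δ / 4) := mul_le_mul_of_nonneg_left h6 (Nat.cast_nonneg _)
  have hfin2 : (1 / (2 * lam)) * (∫ x in G, ‖s x‖ ^ 2 ∂μ)
      ≤ (1 / (2 * lam)) * ((m : ℝ) * (R ^ 2 * M)) :=
    mul_le_mul_of_nonneg_left hle (by positivity)
  have hmδ : lam * M < (m : ℝ) * δ := by
    rwa [div_lt_iff₀ hδ] at hmm
  rw [hsG] at hup
  nlinarith [hlo, hup, hCS, hfin, hfin2, hmδ]

theorem cutoff (μ : Measure Ω) (z : Ω → 𝕜) (hm : StronglyMeasurable z) (hz : Integrable z μ)
    (ε : ℝ) (hε : 0 < ε) : ∃ R : ℕ, ∫ x in {x | (R : ℝ) < ‖z x‖}, ‖z x‖ ∂μ ≤ ε := by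
  have hs : ∀ n : ℕ, MeasurableSet {x | (n : ℝ) < ‖z x‖} := fun n =>
    measurableSet_lt measurable_const hm.norm.measurable
  have hanti : Antitone (fun n : ℕ => {x | (n : ℝ) < ‖z x‖}) := by
    intro a c hac x hx
    have : (a : ℝ) ≤ c := by exact_mod_cast hac
    exact lt_of_le_of_lt this hx
  have ht := tendsto_setIntegral_of_antitone (f := fun x => ‖z x‖) (μ := μ) hs hanti
    ⟨0, hz.norm.integrableOn⟩
  have he : (⋂ n : ℕ, {x | (n : ℝ) < ‖z x‖}) = ∅ := by
    ext x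
    simp only [mem_iInter, mem_empty_iff_false, iff_false, not_forall]
    obtain ⟨n, hn⟩ := exists_nat_gt ‖z x‖
    exact ⟨n, fun h => absurd (show (n : ℝ) < ‖z x‖ from h) (not_lt.mpr hn.le)⟩
  rw [he] at ht
  simp only [Measure.restrict_empty, integral_zero_measure] at ht
  obtain ⟨n, hn⟩ := (ht.eventually (ge_mem_nhds hε)).exists
  exact ⟨n, hn⟩

end F448

open Cardinal in
theorem taskF : TaskF.{u, v} := by
  intro 𝕜 _ Ω _ μ Λ E hΛ hEm hEf z hz δ hδ hlow hF
  classical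
  -- measurable representatives
  set w : (ℕ → Bool) → Ω → 𝕜 := fun i => (hz i).1.mk (z i) with hw
  have hwm : ∀ i, StronglyMeasurable (w i) := fun i => (hz i).1.stronglyMeasurable_mk
  have hae : ∀ i, z i =ᵐ[μ] w i := fun i => (hz i).1.ae_eq_mk
  have hwint : ∀ i, Integrable (w i) μ := fun i => (hz i).congr (hae i)
  choose F hF using hF
  have hcut : ∀ i, ∃ R : ℕ, ∫ x in {x | (R : ℝ) < ‖w i x‖}, ‖w i x‖ ∂μ ≤ δ / 8 := fun i =>
    F448.cutoff μ (w i) (hwm i) (hwint i) (δ / 8) (by positivity)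
  choose R hR using hcut
  -- pigeonhole
  have hcard : Cardinal.mk (Finset Λ × ℕ) < Cardinal.continuum := by
    rw [Cardinal.mk_prod, Cardinal.mk_nat, Cardinal.lift_aleph0, Cardinal.lift_id']
    refine Cardinal.mul_lt_of_lt Cardinal.aleph0_le_continuum ?_ Cardinal.aleph0_lt_continuum
    rcases finite_or_infinite Λ with hfin | hinf
    · exact lt_of_lt_of_le (Cardinal.mk_lt_aleph0 (α := Finset Λ)) Cardinal.aleph0_le_continuum
    · rw [Cardinal.mk_finset_of_infinite]; exact hΛ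
  have hcard2 : ℵ₀ ≤ Cardinal.mk (Finset Λ × ℕ) := by
    rw [Cardinal.aleph0_le_mk_iff]
    infer_instance
  have hβ : Cardinal.mk (ULift.{v} (ℕ → Bool)) = Cardinal.continuum := by
    rw [Cardinal.mk_uLift]
    simp
  obtain ⟨⟨F0, R0⟩, hbig⟩ := Cardinal.infinite_pigeonhole_card_lt
    (fun i : ULift.{v} (ℕ → Bool) => (F i.down, R i.down)) (by rw [hβ]; exact hcard)
    (by rw [hβ]; exact Cardinal.aleph0_le_continuum)
  set T : Set (ℕ → Bool) := {i | F i = F0 ∧ R i = R0} with hTdef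
  have hTinf : T.Infinite := by
    intro hfin
    have hle : ℵ₀ < Cardinal.mk ((fun i : ULift.{v} (ℕ → Bool) => (F i.down, R i.down)) ⁻¹'
        {(F0, R0)}) := lt_of_le_of_lt hcard2 hbig
    have hfin2 : ((fun i : ULift.{v} (ℕ → Bool) => (F i.down, R i.down)) ⁻¹'
        {(F0, R0)}).Finite := by
      have : ((fun i : ULift.{v} (ℕ → Bool) => (F i.down, R i.down)) ⁻¹' {(F0, R0)})
          = ULift.down ⁻¹' T := by
        ext i
        simp [hTdef, Prod.ext_iff]
      rw [this]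
      exact hfin.preimage (ULift.down_injective.injOn)
    have := Cardinal.lt_aleph0_iff_set_finite.mpr hfin2
    exact absurd (hle.trans this) (lt_irrefl _)
  set G : Set Ω := ⋃ γ ∈ F0, E γ with hGdef
  have hGm : MeasurableSet G := Finset.measurableSet_biUnion _ fun γ _ => hEm γ
  have hGf : μ G ≠ ⊤ := by
    refine ne_of_lt (lt_of_le_of_lt (measure_biUnion_finset_le _ _) ?_)
    exact ENNReal.sum_lt_top.mpr fun γ _ => lt_top_iff_ne_top.mpr (hEf γ)
  refine F448.core μ w hwm hwint G hGm hGf (R0 : ℝ) (Nat.cast_nonneg _) δ hδ T hTinf ?_ ?_ ?_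
  · rintro i ⟨hi, -⟩
    have := hF i
    rw [hi] at this
    refine le_trans (le_of_eq ?_) this
    refine integral_congr_ae (ae_restrict_of_ae ?_)
    filter_upwards [hae i] with x hx
    rw [hx]
  · rintro i ⟨-, hi⟩
    have := hR i
    rw [hi] at this
    exact this
  · intro S e he
    refine (hlow S e he).trans (le_of_eq ?_)
    refine integral_congr_ae ?_
    have : ∀ᵐ x ∂μ, ∀ i ∈ S, z i x = w i x := by
      rw [Finset.eventually_all]
      exact fun i _ => hae i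
    filter_upwards [this] with x hx
    congr 1
    exact Finset.sum_congr rfl fun i hi => by rw [hx i hi]

end Pool.Agent.H101R3.LD
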