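import Pool.Agent.H101R3.LD.Tree

set_option autoImplicit false

namespace Pool.Agent.H101R3.LD

open MeasureTheory Set Filter Topology

universe u v w

section Rad

/-- the `N`-th Rademacher function on the free coordinates of level `n` -/
def rad (n N : ℕ) (β : Fin n → Bool) : ℝ := if h : N < n then sg (β ⟨N, h⟩) else 0

lemma rad_of_lt {n N : ℕ} (h : N < n) (β : Fin n → Bool) : rad n N β = sg (β ⟨N, h⟩) := by
  unfold rad
  rw [dif_pos h]

lemma rad_sq_le (n N : ℕ) (β : Fin n → Bool) : rad n N β * rad n N β ≤ 1 := by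
  unfold rad
  split_ifs with h
  · rw [sg_sq]
  · simp

lemma rad_orth (n : ℕ) {N M : ℕ} (hNM : N ≠ M) :
    ∑ β : Fin n → Bool, rad n N β * rad n M β = 0 := by
  classical
  by_cases hN : N < n
  · by_cases hM : M < n
    · refine Finset.sum_involution (s := (Finset.univ : Finset (Fin n → Bool)))
        (fun β _ => Function.update β ⟨N, hN⟩ (!β ⟨N, hN⟩)) ?_ ?_
        (fun β _ => Finset.mem_univ _) ?_
      · intro β _
        rw [rad_of_lt hN, rad_of_lt hM, rad_of_lt hN, rad_of_lt hM, Function.update_self,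
          Function.update_of_ne (by intro h; exact hNM (by simpa using (Fin.ext_iff.1 h).symm))]
        have : sg (!β ⟨N, hN⟩) = - sg (β ⟨N, hN⟩) := by cases β ⟨N, hN⟩ <;> simp [sg]
        rw [this]
        ring
      · intro β _ _ h
        have := congrFun h ⟨N, hN⟩
        rw [Function.update_self] at this
        cases hb : β ⟨N, hN⟩ <;> rw [hb] at this <;> simp at this
      · intro β _
        funext j
        by_cases hj : j = ⟨N, hN⟩
        · subst hj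
          simp
        · rw [Function.update_of_ne hj, Function.update_of_ne hj]
    · apply Finset.sum_eq_zero
      intro β _
      simp [rad, hM]
  · apply Finset.sum_eq_zero
    intro β _
    simp [rad, hN]

lemma rad_sum (n : ℕ) (S : Finset ℕ) (e : ℕ → ℝ) (he : ∀ N, e N = 1 ∨ e N = -1) :
    ∑ β : Fin n → Bool, |∑ N ∈ S, e N * rad n N β| ≤ 2 ^ n * √(S.card : ℝ) := by
  classical
  have h1 : ∑ β : Fin n → Bool, (∑ N ∈ S, e N * rad n N β) ^ 2 ≤ 2 ^ n * (S.card : ℝ) := by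
    have h2 : ∀ β : Fin n → Bool, (∑ N ∈ S, e N * rad n N β) ^ 2 =
        ∑ N ∈ S, ∑ M ∈ S, e N * e M * (rad n N β * rad n M β) := by
      intro β
      rw [sq, Finset.sum_mul_sum]
      apply Finset.sum_congr rfl
      intro N _
      apply Finset.sum_congr rfl
      intro M _
      ring
    rw [Finset.sum_congr rfl (fun β _ => h2 β), Finset.sum_comm]
    have h3 : ∀ N ∈ S, ∑ β : Fin n → Bool, ∑ M ∈ S, e N * e M * (rad n N β * rad n M β) ≤
        2 ^ n := by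
      intro N hN
      rw [Finset.sum_comm]
      rw [Finset.sum_eq_single N]
      · rw [← Finset.mul_sum]
        have h4 : e N * e N = 1 := by rcases he N with h | h <;> rw [h] <;> norm_num
        rw [h4, one_mul]
        calc ∑ β : Fin n → Bool, rad n N β * rad n N β ≤ ∑ _β : Fin n → Bool, (1 : ℝ) :=
              Finset.sum_le_sum fun β _ => rad_sq_le n N β
          _ = 2 ^ n := by simp
      · intro M _ hM
        rw [← Finset.mul_sum, rad_orth n hM.symm, mul_zero]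
      · intro h
        exact absurd hN h
    calc ∑ N ∈ S, ∑ β : Fin n → Bool, ∑ M ∈ S, e N * e M * (rad n N β * rad n M β)
        ≤ ∑ _N ∈ S, (2 : ℝ) ^ n := Finset.sum_le_sum h3
      _ = 2 ^ n * (S.card : ℝ) := by rw [Finset.sum_const, nsmul_eq_mul, mul_comm]
  have h5 : (∑ β : Fin n → Bool, |∑ N ∈ S, e N * rad n N β|) ^ 2 ≤
      (2 ^ n * √(S.card : ℝ)) ^ 2 := by
    calc (∑ β : Fin n → Bool, |∑ N ∈ S, e N * rad n N β|) ^ 2
        ≤ (Finset.univ : Finset (Fin n → Bool)).card *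
          ∑ β : Fin n → Bool, |∑ N ∈ S, e N * rad n N β| ^ 2 := sq_sum_le_card_mul_sum_sq
      _ = 2 ^ n * ∑ β : Fin n → Bool, (∑ N ∈ S, e N * rad n N β) ^ 2 := by
          simp only [sq_abs]
          congr 1
          simp
      _ ≤ 2 ^ n * (2 ^ n * (S.card : ℝ)) := by gcongr
      _ = (2 ^ n * √(S.card : ℝ)) ^ 2 := by
          rw [mul_pow, Real.sq_sqrt (by positivity)]
          ring
  exact (pow_le_pow_iff_left₀ (Finset.sum_nonneg fun _ _ => abs_nonneg _) (by positivity)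
    two_ne_zero).1 h5

end Rad



section Fun

variable {𝕜 : Type} [RCLike 𝕜] {Ω : Type u} [MeasurableSpace Ω] {μ : Measure Ω}
  {X : Type w} [NormedAddCommGroup X] [NormedSpace 𝕜 X]

/-- the signed averages along the branch `i` -/
noncomputable def ff (𝕜 : Type) [RCLike 𝕜] {Ω : Type u} [MeasurableSpace Ω] (μ : Measure Ω)
    (A : (n : ℕ) → V n → Set Ω) (i : ℕ → Bool) (N n : ℕ) : Lp 𝕜 1 μ :=
  ∑ β : Fin n → Bool, ((rad n N β / 2 ^ n * ((μ (A n (fun j => i j, β))).toReal)⁻¹ : ℝ) : 𝕜) •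
    ind 𝕜 μ (A n (fun j => i j, β))

lemma ff_upper {D : Set Ω} {A : (n : ℕ) → V n → Set Ω} (hA : ∀ n, Fam μ D (A n)) (i : ℕ → Bool)
    (n : ℕ) (S : Finset ℕ) (e : ℕ → ℝ) (he : ∀ N, e N = 1 ∨ e N = -1) :
    ‖∑ N ∈ S, ((e N : ℝ) : 𝕜) • ff 𝕜 μ A i N n‖ ≤ √(S.card : ℝ) := by
  classical
  have hpos : ∀ v, 0 < (μ (A n v)).toReal := fun v =>
    ENNReal.toReal_pos ((hA n).1 v).2.2.1.ne' ((hA n).1 v).2.1
  have e1 : ∑ N ∈ S, ((e N : ℝ) : 𝕜) • ff 𝕜 μ A i N n = ∑ β : Fin n → Bool,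
      (((∑ N ∈ S, e N * rad n N β) / 2 ^ n * ((μ (A n (fun j => i j, β))).toReal)⁻¹ : ℝ) : 𝕜) •
        ind 𝕜 μ (A n (fun j => i j, β)) := by
    unfold ff
    simp only [Finset.smul_sum]
    rw [Finset.sum_comm]
    apply Finset.sum_congr rfl
    intro β _
    simp only [smul_smul]
    rw [← Finset.sum_smul]
    congr 1
    rw [Finset.sum_div, Finset.sum_mul, RCLike.ofReal_sum]
    apply Finset.sum_congr rfl
    intro N _
    push_cast
    ring
  rw [e1, norm_ind_sum (fun β => A n (fun j => i j, β)) (fun β => ((hA n).1 _).1)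
    (fun β => ((hA n).1 _).2.1)
    (fun β β' h => (hA n).2 _ _ (by intro h'; exact h (congrArg Prod.snd h')))]
  have e2 : ∑ β : Fin n → Bool, ‖(((∑ N ∈ S, e N * rad n N β) / 2 ^ n *
      ((μ (A n (fun j => i j, β))).toReal)⁻¹ : ℝ) : 𝕜)‖ * (μ (A n (fun j => i j, β))).toReal =
      (∑ β : Fin n → Bool, |∑ N ∈ S, e N * rad n N β|) / 2 ^ n := by
    rw [Finset.sum_div]
    apply Finset.sum_congr rfl
    intro β _
    rw [RCLike.norm_ofReal, abs_mul, abs_of_pos (inv_pos.2 (hpos _)), mul_assoc,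
      inv_mul_cancel₀ (hpos _).ne', mul_one, abs_div, abs_of_pos (by positivity : (0 : ℝ) < 2 ^ n)]
  rw [e2, div_le_iff₀ (by positivity), mul_comm]
  exact rad_sum n S e he

omit [MeasurableSpace Ω] in
lemma nest {A : (n : ℕ) → V n → Set Ω} (hA : ∀ n p, A (n + 1) p ⊆ A n (par p)) {n₀ n : ℕ}
    (h : n₀ ≤ n) : ∀ p : V n, A n p ⊆ A n₀ (fun j => p.1 (Fin.castLE h j),
      fun j => p.2 (Fin.castLE h j)) := by
  induction n, h using Nat.le_induction with
  | base => intro p; exact subset_rfl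
  | succ n h ih => intro p; exact (hA n p).trans (ih (par p))

lemma ff_lower {T : Lp 𝕜 1 μ →L[𝕜] StrongDual 𝕜 X} {M : ℝ} {D : Set Ω}
    {A : (n : ℕ) → V n → Set Ω} (hA : ∀ n, Good μ T M D n (A n))
    (hn : ∀ n p, A (n + 1) p ⊆ A n (par p)) (S : Finset (ℕ → Bool)) (Nn : (ℕ → Bool) → ℕ)
    (e : (ℕ → Bool) → ℝ) (he : ∀ i, e i = 1 ∨ e i = -1) :
    ∃ (n₀ : ℕ) (y : X), ‖y‖ ≤ M ∧ ∀ n, n₀ ≤ n → (S.card : ℝ) / 2 ≤
      RCLike.re ((∑ i ∈ S, ((e i : ℝ) : 𝕜) • T (ff 𝕜 μ A i (Nn i) n)) y) := by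
  classical
  -- the level where the branches are separated
  obtain ⟨n₀, h1, h2⟩ : ∃ n₀ : ℕ, (∀ i ∈ S, Nn i < n₀) ∧ ∀ i ∈ S, ∀ j ∈ S,
      (∀ k < n₀, i k = j k) → i = j := by
    have h3 : ∀ p : (ℕ → Bool) × (ℕ → Bool), ∃ m : ℕ, (∀ k < m, p.1 k = p.2 k) → p.1 = p.2 := by
      intro p
      by_cases h : p.1 = p.2
      · exact ⟨0, fun _ => h⟩
      · obtain ⟨k, hk⟩ := Function.ne_iff.1 h
        exact ⟨k + 1, fun h' => absurd (h' k (Nat.lt_succ_self k)) hk⟩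
    choose m hm using h3
    refine ⟨(S ×ˢ S).sup m + S.sup Nn + 1, fun i hi => ?_, fun i hi j hj h => ?_⟩
    · have := Finset.le_sup (f := Nn) hi
      omega
    · apply hm (i, j)
      intro k hk
      apply h
      have := Finset.le_sup (f := m) (Finset.mk_mem_product hi hj)
      omega
  set σ : V n₀ → Bool := fun p => if h : ∃ i ∈ S, (fun j : Fin n₀ => i j) = p.1 then
    decide (0 < e h.choose * rad n₀ (Nn h.choose) p.2) else true with hσ
  have hσ' : ∀ i ∈ S, ∀ β : Fin n₀ → Bool, sg (σ (fun j => i j, β)) = e i * rad n₀ (Nn i) β := by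
    intro i hi β
    have hex : ∃ i' ∈ S, (fun j : Fin n₀ => i' j) = fun j : Fin n₀ => i j := ⟨i, hi, rfl⟩
    have hch : hex.choose = i := by
      apply h2 _ hex.choose_spec.1 i hi
      intro k hk
      exact congrFun hex.choose_spec.2 ⟨k, hk⟩
    have h4 : σ (fun j => i j, β) = decide (0 < e i * rad n₀ (Nn i) β) := by
      simp only [hσ]
      rw [dif_pos hex]
      simp only [hch]
    rw [h4, rad_of_lt (h1 i hi)]
    rcases he i with h5 | h5 <;> rcases sg_pm (β ⟨Nn i, h1 i hi⟩) with h6 | h6 <;>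
      rw [h5, h6] <;> simp [sg]
  obtain ⟨y, hy1, hy2⟩ := (hA n₀).2 σ
  refine ⟨n₀, y, hy1, fun n hnn => ?_⟩
  have hpos : ∀ v, 0 < (μ (A n v)).toReal := fun v =>
    ENNReal.toReal_pos ((hA n).1.1 v).2.2.1.ne' ((hA n).1.1 v).2.1
  have e1 : RCLike.re ((∑ i ∈ S, ((e i : ℝ) : 𝕜) • T (ff 𝕜 μ A i (Nn i) n)) y) =
      ∑ i ∈ S, ∑ β : Fin n → Bool, e i * (rad n (Nn i) β / 2 ^ n *
        ((μ (A n (fun j => i j, β))).toReal)⁻¹) *
          RCLike.re (T (ind 𝕜 μ (A n (fun j => i j, β))) y) := by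
    rw [sum_apply, map_sum]
    apply Finset.sum_congr rfl
    intro i _
    unfold ff
    rw [map_sum, smul_apply, sum_apply, smul_eq_mul,
      RCLike.re_ofReal_mul, map_sum, Finset.mul_sum]
    apply Finset.sum_congr rfl
    intro β _
    rw [map_smul, smul_apply, smul_eq_mul, RCLike.re_ofReal_mul]
    ring
  rw [e1]
  have h7 : ∀ i ∈ S, (1 : ℝ) / 2 ≤ ∑ β : Fin n → Bool, e i * (rad n (Nn i) β / 2 ^ n *
        ((μ (A n (fun j => i j, β))).toReal)⁻¹) *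
          RCLike.re (T (ind 𝕜 μ (A n (fun j => i j, β))) y) := by
    intro i hi
    have h8 : ∀ β : Fin n → Bool, 1 / 2 / 2 ^ n ≤ e i * (rad n (Nn i) β / 2 ^ n *
        ((μ (A n (fun j => i j, β))).toReal)⁻¹) *
          RCLike.re (T (ind 𝕜 μ (A n (fun j => i j, β))) y) := by
      intro β
      have h9 := hy2 (fun j => i j, fun j => β (Fin.castLE hnn j)) (A n (fun j => i j, β))
        (nest hn hnn (fun j => i j, β)) ((hA n).1.1 _).1
      rw [hσ' i hi] at h9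
      have h10 : rad n₀ (Nn i) (fun j => β (Fin.castLE hnn j)) = rad n (Nn i) β := by
        rw [rad_of_lt (h1 i hi), rad_of_lt (lt_of_lt_of_le (h1 i hi) hnn)]
        rfl
      rw [h10] at h9
      have hp := hpos (fun j => i j, β)
      rw [div_le_iff₀ (by norm_num : (0 : ℝ) < 2)] at h9
      have h11 : e i * (rad n (Nn i) β / 2 ^ n * ((μ (A n (fun j => i j, β))).toReal)⁻¹) *
          RCLike.re (T (ind 𝕜 μ (A n (fun j => i j, β))) y) =
          (e i * rad n (Nn i) β * RCLike.re (T (ind 𝕜 μ (A n (fun j => i j, β))) y)) /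
            (2 ^ n * (μ (A n (fun j => i j, β))).toReal) := by
        field_simp
      rw [h11, div_le_div_iff₀ (by positivity) (by positivity)]
      nlinarith [h9, (by positivity : (0 : ℝ) < 2 ^ n)]
    calc (1 : ℝ) / 2 = ∑ _β : Fin n → Bool, (1 / 2 / 2 ^ n : ℝ) := by
          rw [Finset.sum_const, nsmul_eq_mul]
          simp
          field_simp
      _ ≤ _ := Finset.sum_le_sum fun β _ => h8 β
  calc (S.card : ℝ) / 2 = ∑ _i ∈ S, (1 : ℝ) / 2 := by
        rw [Finset.sum_const, nsmul_eq_mul]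
        ring
    _ ≤ _ := Finset.sum_le_sum h7

lemma exists_lim (g : ℕ → StrongDual 𝕜 X) (M : ℝ) (hg : ∀ n, ‖g n‖ ≤ M) :
    ∃ z : StrongDual 𝕜 X, ∀ y, Tendsto (fun n => g n y) (hyperfilter ℕ : Filter ℕ) (𝓝 (z y)) := by
  have hc := WeakDual.isCompact_closedBall (𝕜 := 𝕜) (E := X) (0 : StrongDual 𝕜 X) M
  let U : Ultrafilter (WeakDual 𝕜 X) := (hyperfilter ℕ).map (fun n => StrongDual.toWeakDual (g n))
  have hU : (U : Filter (WeakDual 𝕜 X)) ≤ 𝓟 (WeakDual.toStrongDual ⁻¹'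
      Metric.closedBall (0 : StrongDual 𝕜 X) M) := by
    have hUe : (U : Filter (WeakDual 𝕜 X)) =
        Filter.map (fun n => StrongDual.toWeakDual (g n)) (hyperfilter ℕ : Filter ℕ) :=
      Ultrafilter.coe_map _ _
    rw [le_principal_iff, hUe, mem_map]
    apply Filter.univ_mem'
    intro n
    rw [mem_preimage, mem_preimage, mem_closedBall_zero_iff]
    exact hg n
  obtain ⟨z, _, hz⟩ := isCompact_iff_ultrafilter_le_nhds.1 hc U hU
  refine ⟨WeakDual.toStrongDual z, fun y => ?_⟩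
  have h1 : Tendsto (fun n => StrongDual.toWeakDual (g n)) (hyperfilter ℕ : Filter ℕ) (𝓝 z) := hz
  exact ((WeakDual.eval_continuous y).tendsto z).comp h1

/-- the family of the limits -/
theorem exists_family {T : Lp 𝕜 1 μ →L[𝕜] StrongDual 𝕜 X} {κ : ℝ} (hκ : 0 < κ) {D : Set Ω}
    {A : (n : ℕ) → V n → Set Ω} (hA : ∀ n, Good μ T (2 / κ) D n (A n))
    (hn : ∀ n p, A (n + 1) p ⊆ A n (par p)) :
    ∃ z : (ℕ → Bool) → ℕ → StrongDual 𝕜 X,
      (∀ (i : ℕ → Bool) (S : Finset ℕ) (e : ℕ → ℝ), (∀ N, e N = 1 ∨ e N = -1) →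
        ‖∑ N ∈ S, ((e N : ℝ) : 𝕜) • z i N‖ ≤ ‖T‖ * √(S.card : ℝ)) ∧
      ∀ (Nn : (ℕ → Bool) → ℕ) (S : Finset (ℕ → Bool)) (e : (ℕ → Bool) → ℝ),
        (∀ i, e i = 1 ∨ e i = -1) →
        κ / 4 * (S.card : ℝ) ≤ ‖∑ i ∈ S, ((e i : ℝ) : 𝕜) • z i (Nn i)‖ := by
  classical
  have hF : ∀ n, Fam μ D (A n) := fun n => (hA n).1
  have h1 : ∀ i N n, ‖T (ff 𝕜 μ A i N n)‖ ≤ ‖T‖ := by
    intro i N n
    have h2 := ff_upper (𝕜 := 𝕜) hF i n {N} (fun _ => 1) (fun _ => Or.inl rfl)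
    simp only [Finset.sum_singleton, Finset.card_singleton, Nat.cast_one, Real.sqrt_one,
      RCLike.ofReal_one, one_smul] at h2
    calc ‖T (ff 𝕜 μ A i N n)‖ ≤ ‖T‖ * ‖ff 𝕜 μ A i N n‖ := T.le_opNorm _
      _ ≤ ‖T‖ * 1 := by gcongr
      _ = ‖T‖ := mul_one _
  have h3 : ∀ i N, ∃ z : StrongDual 𝕜 X, ∀ y,
      Tendsto (fun n => T (ff 𝕜 μ A i N n) y) (hyperfilter ℕ : Filter ℕ) (𝓝 (z y)) := fun i N =>
    exists_lim (fun n => T (ff 𝕜 μ A i N n)) ‖T‖ (h1 i N)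
  choose z hz using h3
  have hlim : ∀ {κ' : Type} (S : Finset κ') (c : κ' → ℝ) (i : κ' → ℕ → Bool) (N : κ' → ℕ) (y : X),
      Tendsto (fun n => (∑ k ∈ S, ((c k : ℝ) : 𝕜) • T (ff 𝕜 μ A (i k) (N k) n)) y)
        (hyperfilter ℕ : Filter ℕ) (𝓝 ((∑ k ∈ S, ((c k : ℝ) : 𝕜) • z (i k) (N k)) y)) := by
    intro κ' S c i N y
    simp only [sum_apply, smul_apply]
    apply tendsto_finsetSum
    intro k _
    exact (hz (i k) (N k) y).const_smul _
  refine ⟨z, fun i S e he => ?_, fun Nn S e he => ?_⟩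
  · apply ContinuousLinearMap.opNorm_le_bound _ (by positivity)
    intro y
    apply le_of_tendsto (hlim S e (fun _ => i) (fun N => N) y).norm
    apply Filter.univ_mem'
    intro n
    change ‖(∑ k ∈ S, ((e k : ℝ) : 𝕜) • T (ff 𝕜 μ A i k n)) y‖ ≤ ‖T‖ * √(S.card : ℝ) * ‖y‖
    have e1 : ∑ k ∈ S, ((e k : ℝ) : 𝕜) • T (ff 𝕜 μ A i k n) =
        T (∑ k ∈ S, ((e k : ℝ) : 𝕜) • ff 𝕜 μ A i k n) := by
      rw [map_sum]
      apply Finset.sum_congr rfl
      intro k _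
      rw [map_smul]
    rw [e1]
    calc ‖T (∑ k ∈ S, ((e k : ℝ) : 𝕜) • ff 𝕜 μ A i k n) y‖
        ≤ ‖T (∑ k ∈ S, ((e k : ℝ) : 𝕜) • ff 𝕜 μ A i k n)‖ * ‖y‖ :=
          ContinuousLinearMap.le_opNorm _ _
      _ ≤ (‖T‖ * ‖∑ k ∈ S, ((e k : ℝ) : 𝕜) • ff 𝕜 μ A i k n‖) * ‖y‖ := by
          gcongr
          exact T.le_opNorm _
      _ ≤ ‖T‖ * √(S.card : ℝ) * ‖y‖ := by
          gcongr
          exact ff_upper hF i n S e he
  · obtain ⟨n₀, y, hy, hlow⟩ := ff_lower hA hn S Nn e he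
    have h4 : (S.card : ℝ) / 2 ≤
        RCLike.re ((∑ i ∈ S, ((e i : ℝ) : 𝕜) • z i (Nn i)) y) := by
      have h5 := (RCLike.continuous_re.tendsto _).comp (hlim S e (fun i => i) Nn y)
      apply ge_of_tendsto h5
      have h6 : ∀ᶠ n in (hyperfilter ℕ : Filter ℕ), n₀ ≤ n := by
        apply Filter.Eventually.filter_mono (Nat.hyperfilter_le_atTop)
        exact eventually_ge_atTop n₀
      filter_upwards [h6] with n hn'
      exact hlow n hn'
    have h7 : RCLike.re ((∑ i ∈ S, ((e i : ℝ) : 𝕜) • z i (Nn i)) y) ≤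
        ‖∑ i ∈ S, ((e i : ℝ) : 𝕜) • z i (Nn i)‖ * (2 / κ) := by
      calc RCLike.re ((∑ i ∈ S, ((e i : ℝ) : 𝕜) • z i (Nn i)) y)
          ≤ ‖(∑ i ∈ S, ((e i : ℝ) : 𝕜) • z i (Nn i)) y‖ := RCLike.re_le_norm _
        _ ≤ ‖∑ i ∈ S, ((e i : ℝ) : 𝕜) • z i (Nn i)‖ * ‖y‖ := ContinuousLinearMap.le_opNorm _ _
        _ ≤ _ := by gcongr
    have h8 := h4.trans h7
    have h9 : ‖∑ i ∈ S, ((e i : ℝ) : 𝕜) • z i (Nn i)‖ * (2 / κ) * (κ / 2) =
        ‖∑ i ∈ S, ((e i : ℝ) : 𝕜) • z i (Nn i)‖ := by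
      field_simp
    have h10 := mul_le_mul_of_nonneg_right h8 (by positivity : 0 ≤ κ / 2)
    rw [h9] at h10
    linarith

end Fun

end Pool.Agent.H101R3.LD
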