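import Pool.Agent.H101R3.LD.Stmts

set_option autoImplicit false

namespace Pool.Agent.H101R3.LD

open Set

universe u

theorem taskSep : TaskSep.{u} := by
  intro 𝕜 _ X _ _ ι _ φ κ hκ H σ hσ
  classical
  by_contra hno
  push Not at hno
  -- the two convex sets
  let K : Set (ι → ℝ) := {v | ∃ y : X, ‖y‖ ≤ 2 / κ ∧ v = fun j => σ j * RCLike.re (φ j y)}
  let P : Set (ι → ℝ) := {v | ∀ j, 1 < v j}
  have hKc : Convex ℝ K := by
    rintro v ⟨y, hy, rfl⟩ w ⟨z, hz, rfl⟩ a b ha hb hab
    refine ⟨((a : ℝ) : 𝕜) • y + ((b : ℝ) : 𝕜) • z, ?_, ?_⟩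
    · calc ‖((a : ℝ) : 𝕜) • y + ((b : ℝ) : 𝕜) • z‖ ≤ ‖((a : ℝ) : 𝕜) • y‖ + ‖((b : ℝ) : 𝕜) • z‖ :=
            norm_add_le _ _
        _ = a * ‖y‖ + b * ‖z‖ := by
            rw [norm_smul, norm_smul, RCLike.norm_ofReal, RCLike.norm_ofReal, abs_of_nonneg ha,
              abs_of_nonneg hb]
        _ ≤ a * (2 / κ) + b * (2 / κ) := by gcongr
        _ = 2 / κ := by rw [← add_mul, hab, one_mul]
    · funext j
      simp only [Pi.add_apply, Pi.smul_apply, smul_eq_mul, map_add, map_smul, RCLike.re_ofReal_mul]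
      ring
  have hPo : IsOpen P := by
    have : P = ⋂ j, {v : ι → ℝ | 1 < v j} := by ext v; simp [P]
    rw [this]
    exact isOpen_iInter_of_finite fun j => isOpen_lt continuous_const (continuous_apply j)
  have hPc : Convex ℝ P := by
    intro v hv w hw a b ha hb hab j
    have h1 := hv j
    have h2 := hw j
    simp only [Pi.add_apply, Pi.smul_apply, smul_eq_mul]
    rcases eq_or_lt_of_le ha with h | h
    · have : b = 1 := by linarith
      rw [← h, this]; linarith
    · nlinarith
  have hdisj : Disjoint P K := by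
    rw [Set.disjoint_left]
    rintro v hv ⟨y, hy, rfl⟩
    obtain ⟨j, hj⟩ := hno y hy
    have := hv j
    simp only at this
    linarith
  obtain ⟨f, u, hf1, hf2⟩ := geometric_hahn_banach_open hPc hPo hKc hdisj
  let c : ι → ℝ := fun j => f (Pi.single j 1)
  have hfv : ∀ v : ι → ℝ, f v = ∑ j, c j * v j := by
    intro v
    have h1 : v = ∑ j, v j • (Pi.single j (1 : ℝ) : ι → ℝ) := by
      funext i
      simp [Finset.sum_apply, Pi.single_apply]
    conv_lhs => rw [h1]
    rw [map_sum]
    refine Finset.sum_congr rfl fun j _ => ?_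
    rw [map_smul, smul_eq_mul, mul_comm]
  have hc0 : ∀ j, c j ≤ 0 := by
    intro j
    by_contra hcj
    push Not at hcj
    have h2 : ∀ s : ℝ, 0 ≤ s → f (fun _ => 2) + s * c j < u := by
      intro s hs
      have : (fun _ => (2:ℝ)) + s • (Pi.single j (1 : ℝ) : ι → ℝ) ∈ P := by
        intro i
        simp only [Pi.add_apply, Pi.smul_apply, smul_eq_mul, Pi.single_apply]
        split_ifs <;> linarith
      have := hf1 _ this
      rwa [map_add, map_smul, smul_eq_mul] at this
    have h3 := h2 (|u - f (fun _ => 2)| / c j) (by positivity)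
    rw [div_mul_cancel₀ _ hcj.ne'] at h3
    have := le_abs_self (u - f (fun _ => 2))
    linarith
  set S : ℝ := ∑ j, |c j| with hS
  have hS0 : 0 ≤ S := Finset.sum_nonneg fun j _ => abs_nonneg _
  have hf1' : f (fun _ => 1) = -S := by
    rw [hfv, hS, ← Finset.sum_neg_distrib]
    refine Finset.sum_congr rfl fun j _ => ?_
    rw [abs_of_nonpos (hc0 j)]
    ring
  have hSu : -S ≤ u := by
    by_contra hlt
    push Not at hlt
    -- `(1 + ε) * (-S) < u`, let ε → 0
    have h4 : ∀ ε : ℝ, 0 < ε → (1 + ε) * (-S) < u := by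
      intro ε hε
      have : (1 + ε) • (fun _ => (1:ℝ) : ι → ℝ) ∈ P := by
        intro i
        simp only [Pi.smul_apply, smul_eq_mul]
        linarith
      have := hf1 _ this
      rwa [map_smul, smul_eq_mul, hf1'] at this
    have h5 := h4 ((-S - u) / (S + 1)) (by apply div_pos <;> linarith)
    have h6 : (-S - u) / (S + 1) * S ≤ -S - u := by
      rw [div_mul_eq_mul_div, div_le_iff₀ (by linarith)]
      nlinarith
    nlinarith
  -- the functional
  let ψ : StrongDual 𝕜 X := ∑ j, ((c j * σ j : ℝ) : 𝕜) • φ j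
  have hψ : ∀ y, RCLike.re (ψ y) = f (fun j => σ j * RCLike.re (φ j y)) := by
    intro y
    rw [hfv]
    simp only [ψ, ContinuousLinearMap.sum_apply, ContinuousLinearMap.smul_apply, smul_eq_mul,
      map_sum, RCLike.re_ofReal_mul]
    refine Finset.sum_congr rfl fun j _ => ?_
    ring
  have hψb : ∀ y : X, ‖y‖ ≤ 2 / κ → ‖ψ y‖ ≤ -u := by
    intro y hy
    rcases eq_or_ne (ψ y) 0 with h0 | h0
    · have h1 := hf2 (fun j => σ j * RCLike.re (φ j (0 : X))) ⟨0, by simp; positivity, rfl⟩
      rw [← hψ] at h1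
      simp only [map_zero] at h1
      rw [h0, norm_zero]
      linarith
    · -- rotate
      let a : 𝕜 := -(((‖ψ y‖ : ℝ) : 𝕜) / ψ y)
      have ha : ‖a‖ = 1 := by
        simp only [a, norm_neg, norm_div, RCLike.norm_ofReal, abs_norm]
        exact div_self (norm_ne_zero_iff.2 h0)
      have hay : ψ (a • y) = -((‖ψ y‖ : ℝ) : 𝕜) := by
        rw [map_smul, smul_eq_mul]
        simp only [a]
        rw [neg_mul, div_mul_cancel₀ _ h0]
      have h1 := hf2 (fun j => σ j * RCLike.re (φ j (a • y)))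
        ⟨a • y, by rw [norm_smul, ha, one_mul]; exact hy, rfl⟩
      rw [← hψ, hay, map_neg, RCLike.ofReal_re] at h1
      linarith
  have hu0 : 0 ≤ -u := (norm_nonneg _).trans (hψb 0 (by simp; positivity))
  have hψn : ‖ψ‖ ≤ -u * κ / 2 := by
    refine ContinuousLinearMap.opNorm_le_bound _ (by positivity) fun y => ?_
    rcases eq_or_ne y 0 with h0 | h0
    · rw [h0]; simp
    · have hy0 : 0 < ‖y‖ := norm_pos_iff.2 h0
      have h1 := hψb (((2 / κ / ‖y‖ : ℝ) : 𝕜) • y) (by
        rw [norm_smul, RCLike.norm_ofReal, abs_of_pos (by positivity), div_mul_cancel₀ _ hy0.ne'])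
      rw [map_smul, norm_smul, RCLike.norm_ofReal, abs_of_pos (by positivity)] at h1
      rw [div_mul_eq_mul_div, div_le_iff₀ hy0, div_mul_eq_mul_div, div_le_iff₀ hκ] at h1
      linarith
  have hH := H (fun j => c j * σ j)
  have h7 : ∑ j, |c j * σ j| = S := by
    refine Finset.sum_congr rfl fun j _ => ?_
    rw [abs_mul]
    rcases hσ j with h | h <;> simp [h]
  have h8 : κ * S ≤ -u * κ / 2 := by
    rw [← h7]
    exact hH.trans hψn
  have h9 : 2 * S ≤ -u := by
    have : κ * (2 * S) ≤ κ * (-u) := by linarith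
    exact le_of_mul_le_mul_left this hκ
  have hSz : S = 0 := by linarith
  have hcz : ∀ j, c j = 0 := by
    intro j
    have := (Finset.sum_eq_zero_iff_of_nonneg (fun j _ => abs_nonneg (c j))).1 hSz j
      (Finset.mem_univ j)
    exact abs_eq_zero.1 this
  have hfz : ∀ v, f v = 0 := by
    intro v; rw [hfv]; simp [hcz]
  have h10 := hf1 (fun _ => 2) (by intro i; norm_num)
  have h11 := hf2 (fun j => σ j * RCLike.re (φ j (0 : X))) ⟨0, by simp; positivity, rfl⟩
  rw [hfz] at h10 h11
  linarith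

end Pool.Agent.H101R3.LD
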