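import Pool.Agent.H101R3.LD.Stmts

set_option autoImplicit false

namespace Pool.Agent.H101R3.LD

open MeasureTheory Set Filter Topology

universe u v w

section Ind

variable {𝕜 : Type} [RCLike 𝕜] {Ω : Type u} [MeasurableSpace Ω] {μ : Measure Ω}

lemma ind_def {B : Set Ω} (hB : MeasurableSet B) (hf : μ B ≠ ⊤) :
    ind 𝕜 μ B = indicatorConstLp 1 hB hf (1 : 𝕜) := by
  unfold ind
  rw [dif_pos ⟨hB, hf⟩]

lemma ind_coe {B : Set Ω} (hB : MeasurableSet B) (hf : μ B ≠ ⊤) :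
    (ind 𝕜 μ B : Ω → 𝕜) =ᵐ[μ] B.indicator (fun _ => (1 : 𝕜)) := by
  rw [ind_def hB hf]
  exact indicatorConstLp_coeFn

lemma coe_sum {ι : Type*} (s : Finset ι) (c : ι → 𝕜) (g : ι → Lp 𝕜 1 μ) :
    ((∑ j ∈ s, c j • g j : Lp 𝕜 1 μ) : Ω → 𝕜) =ᵐ[μ] fun x => ∑ j ∈ s, c j * g j x := by
  classical
  induction s using Finset.induction_on with
  | empty =>
    simp only [Finset.sum_empty]
    exact Lp.coeFn_zero 𝕜 1 μ
  | insert a s ha ih =>
    rw [Finset.sum_insert ha]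
    filter_upwards [Lp.coeFn_add (c a • g a) (∑ j ∈ s, c j • g j), Lp.coeFn_smul (c a) (g a), ih]
      with x h1 h2 h3
    rw [h1, Pi.add_apply, h2, h3, Finset.sum_insert ha, Pi.smul_apply, smul_eq_mul]

lemma norm_sum_eq {ι : Type*} (s : Finset ι) (c : ι → 𝕜) (g : ι → Lp 𝕜 1 μ) :
    ‖∑ j ∈ s, c j • g j‖ = ∫ x, ‖∑ j ∈ s, c j * g j x‖ ∂μ := by
  rw [L1.norm_eq_integral_norm]
  apply integral_congr_ae
  filter_upwards [coe_sum s c g] with x hx
  rw [hx]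

/-- the norm of a combination of indicator functions of disjoint sets -/
lemma norm_ind_sum {ι : Type*} [Fintype ι] (A : ι → Set Ω) (hA : ∀ j, MeasurableSet (A j))
    (hf : ∀ j, μ (A j) ≠ ⊤) (hd : ∀ i j, i ≠ j → Disjoint (A i) (A j)) (c : ι → 𝕜) :
    ‖∑ j, c j • ind 𝕜 μ (A j)‖ = ∑ j, ‖c j‖ * (μ (A j)).toReal := by
  classical
  rw [norm_sum_eq]
  have h1 : (fun x => ‖∑ j, c j * (ind 𝕜 μ (A j) : Ω → 𝕜) x‖) =ᵐ[μ]
      fun x => ∑ j, (A j).indicator (fun _ => ‖c j‖) x := by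
    have h2 : ∀ᵐ x ∂μ, ∀ j, (ind 𝕜 μ (A j) : Ω → 𝕜) x = (A j).indicator (fun _ => (1 : 𝕜)) x := by
      rw [ae_all_iff]
      intro j
      exact ind_coe (hA j) (hf j)
    filter_upwards [h2] with x hx
    simp only [hx]
    by_cases hex : ∃ j, x ∈ A j
    · obtain ⟨j, hj⟩ := hex
      have hne : ∀ i, i ≠ j → x ∉ A i := fun i hi hxi => (hd i j hi).le_bot ⟨hxi, hj⟩
      rw [Finset.sum_eq_single j, Finset.sum_eq_single j]
      · simp [hj]
      · intro i _ hi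
        simp [hne i hi]
      · simp
      · intro i _ hi
        simp [hne i hi]
      · simp
    · push Not at hex
      simp [hex]
  rw [integral_congr_ae h1, integral_finsetSum]
  · apply Finset.sum_congr rfl
    intro j _
    rw [integral_indicator (hA j), setIntegral_const, smul_eq_mul, mul_comm]
    rfl
  · intro j _
    rw [integrable_indicator_iff (hA j)]
    exact integrableOn_const (hf j)

end Ind

section Tree

variable {𝕜 : Type} [RCLike 𝕜] {Ω : Type u} [MeasurableSpace Ω] {μ : Measure Ω}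
  {X : Type w} [NormedAddCommGroup X] [NormedSpace 𝕜 X]

/-- the sign of a boolean -/
def sg (b : Bool) : ℝ := if b then 1 else -1

lemma sg_pm (b : Bool) : sg b = 1 ∨ sg b = -1 := by cases b <;> simp [sg]

lemma sg_sq (b : Bool) : sg b * sg b = 1 := by cases b <;> simp [sg]

/-- a disjoint family of sets of positive finite measure in `D` -/
def Fam (μ : Measure Ω) (D : Set Ω) {V : Type} (A : V → Set Ω) : Prop :=
  (∀ v, MeasurableSet (A v) ∧ μ (A v) ≠ ⊤ ∧ 0 < μ (A v) ∧ A v ⊆ D) ∧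
    ∀ v w, v ≠ w → Disjoint (A v) (A w)

/-- the sign pattern `σ` is realized on the family by an element of norm at most `M` -/
def Real' (μ : Measure Ω) (T : Lp 𝕜 1 μ →L[𝕜] StrongDual 𝕜 X) (M : ℝ) {V : Type} (A : V → Set Ω)
    (σ : V → Bool) : Prop :=
  ∃ y : X, ‖y‖ ≤ M ∧ ∀ v, ∀ B ⊆ A v, MeasurableSet B →
    (μ B).toReal / 2 ≤ sg (σ v) * RCLike.re (T (ind 𝕜 μ B) y)

lemma Fam.sub {D : Set Ω} {V : Type} {A A' : V → Set Ω} (hA : Fam μ D A)
    (h : ∀ v, A' v ⊆ A v ∧ MeasurableSet (A' v) ∧ 0 < μ (A' v)) : Fam μ D A' := by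
  refine ⟨fun v => ⟨(h v).2.1, ?_, (h v).2.2, (h v).1.trans (hA.1 v).2.2.2⟩, fun v w hvw => ?_⟩
  · exact ne_top_of_le_ne_top (hA.1 v).2.1 (measure_mono (h v).1)
  · exact (hA.2 v w hvw).mono (h v).1 (h w).1

lemma Real'.sub {T : Lp 𝕜 1 μ →L[𝕜] StrongDual 𝕜 X} {M : ℝ} {V : Type} {A A' : V → Set Ω}
    {σ : V → Bool} (hA : Real' μ T M A σ) (h : ∀ v, A' v ⊆ A v) : Real' μ T M A' σ := by
  obtain ⟨y, h1, h2⟩ := hA
  exact ⟨y, h1, fun v B hB hBm => h2 v B (hB.trans (h v)) hBm⟩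

lemma shrink_one (hB : TaskB.{u}) (hS : TaskSep.{w}) (T : Lp 𝕜 1 μ →L[𝕜] StrongDual 𝕜 X) {κ : ℝ}
    (hκ : 0 < κ) (hT : ∀ f, κ * ‖f‖ ≤ ‖T f‖) {D : Set Ω} {V : Type} [Fintype V] {A : V → Set Ω}
    (hA : Fam μ D A) (σ : V → Bool) :
    ∃ A' : V → Set Ω, (∀ v, A' v ⊆ A v ∧ MeasurableSet (A' v) ∧ 0 < μ (A' v)) ∧
      Real' μ T (2 / κ) A' σ := by
  classical
  have hpos : ∀ v, 0 < (μ (A v)).toReal := fun v =>
    ENNReal.toReal_pos (hA.1 v).2.2.1.ne' (hA.1 v).2.1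
  obtain ⟨y, hy1, hy2⟩ := hS 𝕜 X V (fun v => T ((((μ (A v)).toReal)⁻¹ : ℝ) • ind 𝕜 μ (A v))) κ hκ
    (by
      intro c
      have e1 : ∑ j, ((c j : ℝ) : 𝕜) • T ((((μ (A j)).toReal)⁻¹ : ℝ) • ind 𝕜 μ (A j)) =
          T (∑ j, (((c j * ((μ (A j)).toReal)⁻¹ : ℝ) : 𝕜)) • ind 𝕜 μ (A j)) := by
        rw [map_sum]
        apply Finset.sum_congr rfl
        intro j _
        rw [← map_smul]
        congr 1
        rw [RCLike.real_smul_eq_coe_smul (K := 𝕜), smul_smul]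
        push_cast
        rfl
      rw [e1]
      refine le_trans (le_of_eq ?_) (hT _)
      rw [norm_ind_sum A (fun j => (hA.1 j).1) (fun j => (hA.1 j).2.1) hA.2]
      congr 1
      apply Finset.sum_congr rfl
      intro j _
      rw [RCLike.norm_ofReal, abs_mul, abs_of_pos (inv_pos.2 (hpos j)), mul_assoc,
        inv_mul_cancel₀ (hpos j).ne', mul_one])
    (fun v => sg (σ v)) (fun v => sg_pm _)
  have h3 : ∀ v, ∃ A' ⊆ A v, MeasurableSet A' ∧ 0 < μ A' ∧ ∀ B ⊆ A', MeasurableSet B →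
      (μ B).toReal / 2 ≤ sg (σ v) * RCLike.re (T (ind 𝕜 μ B) y) := by
    intro v
    apply hB 𝕜 Ω μ (fun f => sg (σ v) * RCLike.re (T f y)) _ _ (A v) (hA.1 v).1 (hA.1 v).2.1
      (hA.1 v).2.2.1 _
    · intro f g
      simp only [map_add, add_apply]
      ring
    · refine ⟨‖T‖ * ‖y‖, fun f => ?_⟩
      have e1 : |sg (σ v)| = 1 := by
        rcases sg_pm (σ v) with h | h <;> rw [h] <;> simp
      rw [abs_mul, e1, one_mul]
      calc |RCLike.re (T f y)| ≤ ‖T f y‖ := RCLike.abs_re_le_norm _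
        _ ≤ ‖T f‖ * ‖y‖ := (T f).le_opNorm y
        _ ≤ (‖T‖ * ‖f‖) * ‖y‖ := by gcongr; exact T.le_opNorm f
        _ = ‖T‖ * ‖y‖ * ‖f‖ := by ring
    · have h4 := hy2 v
      have e2 : T ((((μ (A v)).toReal)⁻¹ : ℝ) • ind 𝕜 μ (A v)) y =
          ((((μ (A v)).toReal)⁻¹ : ℝ) : 𝕜) * T (ind 𝕜 μ (A v)) y := by
        rw [RCLike.real_smul_eq_coe_smul (K := 𝕜), map_smul]
        rfl
      rw [e2, RCLike.re_ofReal_mul] at h4
      have h5 := mul_le_mul_of_nonneg_left h4 (hpos v).le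
      rw [mul_one] at h5
      refine h5.trans (le_of_eq ?_)
      rw [← mul_assoc, mul_comm ((μ (A v)).toReal) (sg (σ v)), mul_assoc, ← mul_assoc _ _⁻¹,
        mul_inv_cancel₀ (hpos v).ne', one_mul]
  choose A' h1 h2 h4 h5 using h3
  exact ⟨A', fun v => ⟨h1 v, h2 v, h4 v⟩, y, hy1, h5⟩

lemma shrink_all (hB : TaskB.{u}) (hS : TaskSep.{w}) (T : Lp 𝕜 1 μ →L[𝕜] StrongDual 𝕜 X) {κ : ℝ}
    (hκ : 0 < κ) (hT : ∀ f, κ * ‖f‖ ≤ ‖T f‖) {D : Set Ω} {V : Type} [Fintype V] {A : V → Set Ω}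
    (hA : Fam μ D A) (s : Finset (V → Bool)) :
    ∃ A' : V → Set Ω, (∀ v, A' v ⊆ A v ∧ MeasurableSet (A' v) ∧ 0 < μ (A' v)) ∧
      ∀ σ ∈ s, Real' μ T (2 / κ) A' σ := by
  classical
  induction s using Finset.induction_on with
  | empty => exact ⟨A, fun v => ⟨subset_rfl, (hA.1 v).1, (hA.1 v).2.2.1⟩, by simp⟩
  | insert σ s _ ih =>
    obtain ⟨A1, h1, h2⟩ := ih
    obtain ⟨A2, h3, h4⟩ := shrink_one hB hS T hκ hT (hA.sub h1) σ
    refine ⟨A2, fun v => ⟨(h3 v).1.trans (h1 v).1, (h3 v).2⟩, ?_⟩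
    intro τ hτ
    rw [Finset.mem_insert] at hτ
    rcases hτ with rfl | hτ
    · exact h4
    · exact (h2 τ hτ).sub fun v => (h3 v).1

/-- splitting a set without atoms into two -/
lemma split_two {D : Set Ω} (hD : ∀ B ⊆ D, ¬ IsAtom μ B) {A : Set Ω} (hAm : MeasurableSet A)
    (hA0 : 0 < μ A) (hAD : A ⊆ D) :
    ∃ B ⊆ A, MeasurableSet B ∧ 0 < μ B ∧ 0 < μ (A \ B) := by
  by_contra hcon
  push Not at hcon
  apply hD A hAD
  refine ⟨hAm, hA0, fun B hB hBm => ?_⟩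
  by_cases h : μ B = 0
  · exact Or.inl h
  · right
    have := hcon B hB hBm (pos_iff_ne_zero.2 h)
    simpa using this

/-- splitting a set without atoms into four -/
lemma split_four {D : Set Ω} (hD : ∀ B ⊆ D, ¬ IsAtom μ B) {A : Set Ω} (hAm : MeasurableSet A)
    (hA0 : 0 < μ A) (hAD : A ⊆ D) :
    ∃ P : Bool × Bool → Set Ω, (∀ b, P b ⊆ A ∧ MeasurableSet (P b) ∧ 0 < μ (P b)) ∧
      ∀ b b', b ≠ b' → Disjoint (P b) (P b') := by
  obtain ⟨B, h1, h2, h3, h4⟩ := split_two hD hAm hA0 hAD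
  obtain ⟨B1, h5, h6, h7, h8⟩ := split_two hD h2 h3 (h1.trans hAD)
  obtain ⟨B2, h9, h10, h11, h12⟩ := split_two hD (hAm.diff h2) h4 (sdiff_subset.trans hAD)
  refine ⟨fun b => if b.1 then (if b.2 then B1 else B \ B1) else
    (if b.2 then B2 else (A \ B) \ B2), ?_, ?_⟩
  · rintro ⟨b1, b2⟩
    cases b1 <;> cases b2
    · exact ⟨sdiff_subset.trans sdiff_subset, (hAm.diff h2).diff h10, h12⟩
    · exact ⟨h9.trans sdiff_subset, h10, h11⟩
    · exact ⟨sdiff_subset.trans h1, h2.diff h6, h8⟩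
    · exact ⟨h5.trans h1, h6, h7⟩
  · have d1 : Disjoint B (A \ B) := disjoint_sdiff_right
    have e1 : Disjoint B1 (B \ B1) := disjoint_sdiff_right
    have e2 : Disjoint B2 ((A \ B) \ B2) := disjoint_sdiff_right
    rintro ⟨b1, b2⟩ ⟨c1, c2⟩ hne
    cases b1 <;> cases b2 <;> cases c1 <;> cases c2 <;>
      first
      | exact absurd rfl hne
      | exact e1
      | exact e1.symm
      | exact e2
      | exact e2.symm
      | exact d1.mono h5 h9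
      | exact (d1.mono h5 h9).symm
      | exact d1.mono h5 sdiff_subset
      | exact (d1.mono h5 sdiff_subset).symm
      | exact d1.mono sdiff_subset h9
      | exact (d1.mono sdiff_subset h9).symm
      | exact d1.mono sdiff_subset sdiff_subset
      | exact (d1.mono sdiff_subset sdiff_subset).symm

/-- nodes of level `n` -/
abbrev V (n : ℕ) : Type := (Fin n → Bool) × (Fin n → Bool)

/-- the parent of a node -/
def par {n : ℕ} (p : V (n + 1)) : V n := (fun j => p.1 j.castSucc, fun j => p.2 j.castSucc)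

/-- the good families of level `n` -/
def Good (μ : Measure Ω) (T : Lp 𝕜 1 μ →L[𝕜] StrongDual 𝕜 X) (M : ℝ) (D : Set Ω) (n : ℕ)
    (A : V n → Set Ω) : Prop :=
  Fam μ D A ∧ ∀ σ : V n → Bool, Real' μ T M A σ

lemma good_zero (hB : TaskB.{u}) (hS : TaskSep.{w}) (T : Lp 𝕜 1 μ →L[𝕜] StrongDual 𝕜 X) {κ : ℝ}
    (hκ : 0 < κ) (hT : ∀ f, κ * ‖f‖ ≤ ‖T f‖) {D : Set Ω} (hDm : MeasurableSet D) (hD0 : 0 < μ D)
    (hDf : μ D ≠ ⊤) : ∃ A : V 0 → Set Ω, Good μ T (2 / κ) D 0 A := by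
  classical
  have h0 : Fam μ D (fun _ : V 0 => D) :=
    ⟨fun _ => ⟨hDm, hDf, hD0, subset_rfl⟩, fun v w hvw => absurd (Subsingleton.elim v w) hvw⟩
  obtain ⟨A, h1, h2⟩ := shrink_all hB hS T hκ hT h0 Finset.univ
  exact ⟨A, h0.sub h1, fun σ => h2 σ (Finset.mem_univ _)⟩

lemma good_succ (hB : TaskB.{u}) (hS : TaskSep.{w}) (T : Lp 𝕜 1 μ →L[𝕜] StrongDual 𝕜 X) {κ : ℝ}
    (hκ : 0 < κ) (hT : ∀ f, κ * ‖f‖ ≤ ‖T f‖) {D : Set Ω} (hD : ∀ B ⊆ D, ¬ IsAtom μ B) {n : ℕ}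
    {A : V n → Set Ω} (hA : Good μ T (2 / κ) D n A) :
    ∃ A' : V (n + 1) → Set Ω, Good μ T (2 / κ) D (n + 1) A' ∧ ∀ p, A' p ⊆ A (par p) := by
  classical
  have h1 : ∀ v, ∃ P : Bool × Bool → Set Ω,
      (∀ b, P b ⊆ A v ∧ MeasurableSet (P b) ∧ 0 < μ (P b)) ∧
      ∀ b b', b ≠ b' → Disjoint (P b) (P b') := fun v =>
    split_four hD (hA.1.1 v).1 (hA.1.1 v).2.2.1 (hA.1.1 v).2.2.2
  choose P hP1 hP2 using h1
  set A1 : V (n + 1) → Set Ω := fun p => P (par p) (p.1 (Fin.last n), p.2 (Fin.last n)) with hA1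
  have h2 : Fam μ D A1 := by
    refine ⟨fun p => ⟨(hP1 _ _).2.1, ?_, (hP1 _ _).2.2, ?_⟩, ?_⟩
    · exact ne_top_of_le_ne_top (hA.1.1 (par p)).2.1 (measure_mono (hP1 _ _).1)
    · exact (hP1 _ _).1.trans (hA.1.1 (par p)).2.2.2
    · intro p q hpq
      by_cases hpar : par p = par q
      · have hl : (p.1 (Fin.last n), p.2 (Fin.last n)) ≠ (q.1 (Fin.last n), q.2 (Fin.last n)) := by
          intro he
          apply hpq
          have e1 : p.1 (Fin.last n) = q.1 (Fin.last n) := congrArg Prod.fst he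
          have e2 : p.2 (Fin.last n) = q.2 (Fin.last n) := congrArg Prod.snd he
          have e3 : (fun j : Fin n => p.1 j.castSucc) = fun j => q.1 j.castSucc :=
            congrArg Prod.fst hpar
          have e4 : (fun j : Fin n => p.2 j.castSucc) = fun j => q.2 j.castSucc :=
            congrArg Prod.snd hpar
          apply Prod.ext
          · funext j
            refine Fin.lastCases e1 (fun j => ?_) j
            exact congrFun e3 j
          · funext j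
            refine Fin.lastCases e2 (fun j => ?_) j
            exact congrFun e4 j
        simp only [hA1]
        rw [hpar]
        exact hP2 _ _ _ hl
      · exact (hA.1.2 _ _ hpar).mono (hP1 _ _).1 (hP1 _ _).1
  obtain ⟨A2, h3, h4⟩ := shrink_all hB hS T hκ hT h2 Finset.univ
  exact ⟨A2, ⟨h2.sub h3, fun σ => h4 σ (Finset.mem_univ _)⟩,
    fun p => (h3 p).1.trans (hP1 _ _).1⟩

/-- the tree -/
theorem exists_tree (hB : TaskB.{u}) (hS : TaskSep.{w}) (T : Lp 𝕜 1 μ →L[𝕜] StrongDual 𝕜 X) {κ : ℝ}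
    (hκ : 0 < κ) (hT : ∀ f, κ * ‖f‖ ≤ ‖T f‖) {D : Set Ω} (hDm : MeasurableSet D) (hD0 : 0 < μ D)
    (hDf : μ D ≠ ⊤) (hD : ∀ B ⊆ D, ¬ IsAtom μ B) :
    ∃ A : (n : ℕ) → V n → Set Ω, (∀ n, Good μ T (2 / κ) D n (A n)) ∧
      ∀ n p, A (n + 1) p ⊆ A n (par p) := by
  classical
  obtain ⟨A0, h0⟩ := good_zero hB hS T hκ hT hDm hD0 hDf
  have hs : ∀ n (A : {A : V n → Set Ω // Good μ T (2 / κ) D n A}),
      ∃ A' : {A : V (n + 1) → Set Ω // Good μ T (2 / κ) D (n + 1) A}, ∀ p, A'.1 p ⊆ A.1 (par p) := by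
    rintro n ⟨A, hA⟩
    obtain ⟨A', h1, h2⟩ := good_succ hB hS T hκ hT hD hA
    exact ⟨⟨A', h1⟩, h2⟩
  choose nxt hnxt using hs
  let sq : (n : ℕ) → {A : V n → Set Ω // Good μ T (2 / κ) D n A} := fun n =>
    Nat.rec ⟨A0, h0⟩ (fun n A => nxt n A) n
  exact ⟨fun n => (sq n).1, fun n => (sq n).2, fun n p => hnxt n (sq n) p⟩

end Tree

end Pool.Agent.H101R3.LD
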